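import Pool.Agent.LGO.E3.FrmMap

/-!
# LGO, engine 4, module Coef: the lowest coefficients of the forms

`U₂(X t) = X² t² + ..` is divisible by `X²`: if `p a b c = 0` for `b < b₀`, the coefficient of
`X^(2 b₀)` in the form of degree `k + 2 b₀` only comes from `b = b₀` and is the coefficient of `t^k` in
`∑ p a b₀ c U₁(t)^a U₃(l₁ t)^c`.

Proof.  Work in `R[X]⟦t⟧`.  Write `U₂ = t² V`, `V = PowerSeries.mk (fun n => coeff (n+2) U₂)`,
`coeff 0 V = 1`; `rescale X (map C U₂) = X² t² W` with `W = rescale X (map C V)`; so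
`dirS U₁ U₂ U₃ l₁ l₂ a b c = X^(2b) t^(2b) * D` with
`D = (map C U₁)^a W^b (rescale (C l₁ + C l₂ X) (map C U₃))^c`, and
`coeff (k + 2 b₀) (dirS ..) = X^(2 b) coeff (k + 2 b₀ - 2 b) D` (`0` if `2 b > k + 2 b₀`).  Its
coefficient at `X^(2 b₀)` is `0` for `b > b₀`, and for `b = b₀` it is the constant coefficient (value
at `X = 0`) of `coeff k D`.  The evaluation at `X = 0` is a ring homomorphism `R[X] → R`
(`constantCoeff` / `evalRingHom 0`); applied to the coefficients it maps `map C U₁` to `U₁`, `W` to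
`rescale 0 V = 1` and the last factor to `rescale l₁ U₃`.
`rev_frm`: call a power series `f` over `R[X]` homogeneous if `natDegree (coeff k f) ≤ k` for all `k`,
and put `rev f = mk fun k => reflect k (coeff k f)`.  For homogeneous `f, g` the product is homogeneous
and `rev (f g) = rev f rev g` (`Polynomial.reflect_mul`, `reflect_add`, sum over the antidiagonal), so
`rev (f^n) = (rev f)^n`.  `rev (map C U₁) = rescale X (map C U₁)` (`reflect k (C u) = C u X^k`) and
`rev (rescale X (map C U₂)) = map C U₂`, `rev (rescale (C l₁ + C l₂ X) (map C U₃)) =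
rescale (C l₂ + C l₁ X) (map C U₃)` (`reflect k ((l₁ + l₂ X)^k) = (l₂ + l₁ X)^k`, from `reflect_mul`).
So `coeff k (dirS U₂ U₁ U₃ l₂ l₁ b a c) = reflect k (coeff k (dirS U₁ U₂ U₃ l₁ l₂ a b c))`, and
`(reflect k f).coeff i = f.coeff (k - i)` for `i ≤ k` (`coeff_reflect`, `revAt_le`).
-/

namespace Pool.Agent.LGO.E4

open Polynomial Pool.Agent.LGO.E3

lemma Coef_eq_X_sq_mul {R : Type*} [CommRing R] {U : PowerSeries R}
    (h0 : PowerSeries.coeff 0 U = 0) (h1 : PowerSeries.coeff 1 U = 0) :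
    U = PowerSeries.X ^ 2 * PowerSeries.mk (fun n => PowerSeries.coeff (n + 2) U) := by
  ext n
  rw [PowerSeries.coeff_X_pow_mul']
  split_ifs with h
  · rw [PowerSeries.coeff_mk, Nat.sub_add_cancel h]
  · have : n = 0 ∨ n = 1 := by omega
    rcases this with rfl | rfl
    · exact h0
    · exact h1

lemma Coef_resc {R : Type*} [CommRing R] {U V : PowerSeries R}
    (h : U = PowerSeries.X ^ 2 * V) :
    PowerSeries.rescale (X : R[X]) (PowerSeries.map (C : R →+* R[X]) U) =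
      PowerSeries.X ^ 2 * (PowerSeries.C (X ^ 2 : R[X]) *
        PowerSeries.rescale (X : R[X]) (PowerSeries.map (C : R →+* R[X]) V)) := by
  rw [h, map_mul, map_mul, map_pow, map_pow, PowerSeries.map_X, PowerSeries.rescale_X, mul_pow,
    ← map_pow]
  ring

lemma Coef_dirS {R : Type*} [CommRing R] {U₁ U₂ U₃ V : PowerSeries R} (l₁ l₂ : R)
    (h : U₂ = PowerSeries.X ^ 2 * V) (a b c : ℕ) :
    dirS U₁ U₂ U₃ l₁ l₂ a b c = PowerSeries.X ^ (2 * b) * (PowerSeries.C (X ^ (2 * b) : R[X]) *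
      ((PowerSeries.map (C : R →+* R[X]) U₁) ^ a *
        (PowerSeries.rescale (X : R[X]) (PowerSeries.map (C : R →+* R[X]) V)) ^ b *
        (PowerSeries.rescale (C l₁ + C l₂ * X) (PowerSeries.map (C : R →+* R[X]) U₃)) ^ c)) := by
  unfold dirS
  have e : (PowerSeries.C (X ^ 2 : R[X])) ^ b = PowerSeries.C (X ^ (2 * b) : R[X]) := by
    rw [← map_pow PowerSeries.C, ← pow_mul]
  rw [Coef_resc h, mul_pow, mul_pow, ← pow_mul, e]
  ring

lemma Coef_map_D {R : Type*} [CommRing R] {U₁ U₃ V : PowerSeries R} (l₁ l₂ : R)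
    (hV : PowerSeries.coeff 0 V = 1) (a b c : ℕ) :
    PowerSeries.map (Polynomial.evalRingHom (0 : R))
      ((PowerSeries.map (C : R →+* R[X]) U₁) ^ a *
        (PowerSeries.rescale (X : R[X]) (PowerSeries.map (C : R →+* R[X]) V)) ^ b *
        (PowerSeries.rescale (C l₁ + C l₂ * X) (PowerSeries.map (C : R →+* R[X]) U₃)) ^ c) =
      U₁ ^ a * (PowerSeries.rescale l₁ U₃) ^ c := by
  have hC : ∀ U : PowerSeries R, PowerSeries.map (Polynomial.evalRingHom (0 : R))
      (PowerSeries.map (C : R →+* R[X]) U) = U := by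
    intro U
    ext n
    rw [PowerSeries.coeff_map, PowerSeries.coeff_map, coe_evalRingHom, eval_C]
  have h0 : PowerSeries.rescale (0 : R) V = 1 := by
    ext n
    rw [PowerSeries.coeff_rescale, PowerSeries.coeff_one]
    split_ifs with hn
    · rw [hn, pow_zero, one_mul, hV]
    · rw [zero_pow hn, zero_mul]
  rw [map_mul, map_mul, map_pow, map_pow, map_pow, FrmMap_map_rescale, FrmMap_map_rescale, hC, hC,
    hC]
  have e1 : (Polynomial.evalRingHom (0 : R)) (X : R[X]) = 0 := by simp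
  have e2 : (Polynomial.evalRingHom (0 : R)) (C l₁ + C l₂ * X : R[X]) = l₁ := by simp
  rw [e1, e2, h0, one_pow, mul_one]

lemma Coef_lt {R : Type*} [CommRing R] {U₁ U₂ U₃ : PowerSeries R} (l₁ l₂ : R)
    (h0 : PowerSeries.coeff 0 U₂ = 0) (h1 : PowerSeries.coeff 1 U₂ = 0) {b₀ b : ℕ} (hb : b₀ < b)
    (a c k : ℕ) :
    (PowerSeries.coeff (k + 2 * b₀) (dirS U₁ U₂ U₃ l₁ l₂ a b c)).coeff (2 * b₀) = 0 := by
  rw [Coef_dirS l₁ l₂ (Coef_eq_X_sq_mul h0 h1), PowerSeries.coeff_X_pow_mul']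
  split_ifs with h
  · rw [PowerSeries.coeff_C_mul, Polynomial.coeff_X_pow_mul', if_neg (by omega)]
  · exact Polynomial.coeff_zero _

lemma Coef_eq {R : Type*} [CommRing R] {U₁ U₂ U₃ : PowerSeries R} (l₁ l₂ : R)
    (h0 : PowerSeries.coeff 0 U₂ = 0) (h1 : PowerSeries.coeff 1 U₂ = 0)
    (h2 : PowerSeries.coeff 2 U₂ = 1) (b₀ : ℕ) (a c k : ℕ) :
    (PowerSeries.coeff (k + 2 * b₀) (dirS U₁ U₂ U₃ l₁ l₂ a b₀ c)).coeff (2 * b₀) =
      PowerSeries.coeff k (U₁ ^ a * (PowerSeries.rescale l₁ U₃) ^ c) := by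
  rw [Coef_dirS l₁ l₂ (Coef_eq_X_sq_mul h0 h1), PowerSeries.coeff_X_pow_mul', if_pos (by omega),
    PowerSeries.coeff_C_mul, Polynomial.coeff_X_pow_mul', if_pos le_rfl, Nat.sub_self,
    Nat.add_sub_cancel, Polynomial.coeff_zero_eq_eval_zero, ← coe_evalRingHom,
    ← PowerSeries.coeff_map, Coef_map_D l₁ l₂ (by rw [PowerSeries.coeff_mk]; exact h2)]

theorem frm_coeff {R : Type*} [CommRing R] {U₁ U₂ U₃ : PowerSeries R} (l₁ l₂ : R)
    (h0 : PowerSeries.coeff 0 U₂ = 0) (h1 : PowerSeries.coeff 1 U₂ = 0)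
    (h2 : PowerSeries.coeff 2 U₂ = 1) (L L' : ℕ) (p : ℕ → ℕ → ℕ → ℤ) {b₀ : ℕ} (hb : b₀ < L)
    (hp : ∀ a < L, ∀ b < b₀, ∀ c < L', p a b c = 0) (k : ℕ) :
    (frm U₁ U₂ U₃ l₁ l₂ L L' p (k + 2 * b₀)).coeff (2 * b₀) =
      PowerSeries.coeff k (∑ a ∈ Finset.range L, ∑ c ∈ Finset.range L',
        PowerSeries.C (p a b₀ c : R) * U₁ ^ a * PowerSeries.rescale l₁ U₃ ^ c) := by
  unfold frm
  rw [Polynomial.finsetSum_coeff, map_sum]
  refine Finset.sum_congr rfl fun a ha => ?_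
  rw [Polynomial.finsetSum_coeff, map_sum, Finset.sum_eq_single_of_mem b₀ (Finset.mem_range.mpr hb)]
  · rw [Polynomial.finsetSum_coeff]
    refine Finset.sum_congr rfl fun c _ => ?_
    rw [← Polynomial.C_eq_intCast, Polynomial.coeff_C_mul, Coef_eq l₁ l₂ h0 h1 h2, mul_assoc,
      PowerSeries.coeff_C_mul]
  · intro b _ hbb
    rw [Polynomial.finsetSum_coeff]
    refine Finset.sum_eq_zero fun c hc => ?_
    rcases lt_or_gt_of_ne hbb with hlt | hlt
    · rw [hp a (Finset.mem_range.mp ha) b hlt c (Finset.mem_range.mp hc), Int.cast_zero, zero_mul,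
        Polynomial.coeff_zero]
    · rw [← Polynomial.C_eq_intCast, Polynomial.coeff_C_mul, Coef_lt l₁ l₂ h0 h1 hlt, mul_zero]

/-- the reversed power series -/
noncomputable def Coef_rev {R : Type*} [CommRing R] (f : PowerSeries R[X]) : PowerSeries R[X] :=
  PowerSeries.mk fun k => Polynomial.reflect k (PowerSeries.coeff k f)

lemma Coef_reflect_sum {R : Type*} [CommRing R] {ι : Type*} (s : Finset ι) (f : ι → R[X]) (k : ℕ) :
    Polynomial.reflect k (∑ i ∈ s, f i) = ∑ i ∈ s, Polynomial.reflect k (f i) := by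
  classical
  induction s using Finset.induction_on with
  | empty => simp
  | insert a s ha ih => rw [Finset.sum_insert ha, Finset.sum_insert ha, reflect_add, ih]

lemma Coef_rev_mul {R : Type*} [CommRing R] {f g : PowerSeries R[X]} (hf : FrmMap_Gr f)
    (hg : FrmMap_Gr g) : Coef_rev (f * g) = Coef_rev f * Coef_rev g := by
  ext1 k
  unfold Coef_rev
  rw [PowerSeries.coeff_mk, PowerSeries.coeff_mul, PowerSeries.coeff_mul, Coef_reflect_sum]
  refine Finset.sum_congr rfl fun x hx => ?_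
  have h := Finset.HasAntidiagonal.mem_antidiagonal.mp hx
  rw [PowerSeries.coeff_mk, PowerSeries.coeff_mk, ← h, reflect_mul _ _ (hf x.1) (hg x.2)]

lemma Coef_rev_one {R : Type*} [CommRing R] : Coef_rev (1 : PowerSeries R[X]) = 1 := by
  ext1 k
  unfold Coef_rev
  rw [PowerSeries.coeff_mk, PowerSeries.coeff_one]
  split_ifs with h
  · subst h
    have : (1 : R[X]) = C 1 := rfl
    rw [this, reflect_C]
    simp
  · exact reflect_zero

lemma Coef_rev_pow {R : Type*} [CommRing R] {f : PowerSeries R[X]} (hf : FrmMap_Gr f) (n : ℕ) :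
    Coef_rev (f ^ n) = Coef_rev f ^ n := by
  induction n with
  | zero => rw [pow_zero, pow_zero, Coef_rev_one]
  | succ n ih => rw [pow_succ, pow_succ, Coef_rev_mul (hf.pow n) hf, ih]

lemma Coef_reflect_lin_pow {R : Type*} [CommRing R] (l₁ l₂ : R) (k : ℕ) :
    Polynomial.reflect k ((C l₁ + C l₂ * X : R[X]) ^ k) = (C l₂ + C l₁ * X) ^ k := by
  have hd : ∀ u v : R, (C u + C v * X : R[X]).natDegree ≤ 1 := by
    intro u v
    refine natDegree_add_le_of_degree_le ?_ ?_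
    · rw [natDegree_C]; exact Nat.zero_le _
    · exact (natDegree_C_mul_le _ _).trans natDegree_X_le
  have h1 : Polynomial.reflect 1 (C l₁ + C l₂ * X : R[X]) = C l₂ + C l₁ * X := by
    rw [reflect_add, reflect_C, reflect_C_mul, pow_one]
    have : Polynomial.reflect 1 (X : R[X]) = 1 := by
      simp
    rw [this]
    ring
  induction k with
  | zero =>
    rw [pow_zero, pow_zero]
    have : (1 : R[X]) = C 1 := rfl
    rw [this, reflect_C]
    simp
  | succ k ih =>
    rw [pow_succ, pow_succ, reflect_mul _ _ ?_ (hd l₁ l₂), ih, h1]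
    refine natDegree_pow_le.trans ?_
    calc k * _ ≤ k * 1 := Nat.mul_le_mul_left _ (hd l₁ l₂)
      _ = k := mul_one _

lemma Coef_rev_lin {R : Type*} [CommRing R] (l₁ l₂ : R) (U : PowerSeries R) :
    Coef_rev (PowerSeries.rescale (C l₁ + C l₂ * X) (PowerSeries.map (C : R →+* R[X]) U)) =
      PowerSeries.rescale (C l₂ + C l₁ * X) (PowerSeries.map (C : R →+* R[X]) U) := by
  ext1 k
  unfold Coef_rev
  rw [PowerSeries.coeff_mk, PowerSeries.coeff_rescale, PowerSeries.coeff_rescale,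
    PowerSeries.coeff_map, mul_comm, reflect_C_mul, Coef_reflect_lin_pow, mul_comm]

lemma Coef_rev_base {R : Type*} [CommRing R] (U : PowerSeries R) :
    Coef_rev (PowerSeries.map (C : R →+* R[X]) U) =
      PowerSeries.rescale (X : R[X]) (PowerSeries.map (C : R →+* R[X]) U) := by
  have h := Coef_rev_lin (1 : R) 0 U
  simpa using h

lemma Coef_rev_resc {R : Type*} [CommRing R] (U : PowerSeries R) :
    Coef_rev (PowerSeries.rescale (X : R[X]) (PowerSeries.map (C : R →+* R[X]) U)) =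
      PowerSeries.map (C : R →+* R[X]) U := by
  have h := Coef_rev_lin (0 : R) 1 U
  simpa using h

lemma Coef_rev_dirS {R : Type*} [CommRing R] (U₁ U₂ U₃ : PowerSeries R) (l₁ l₂ : R)
    (a b c : ℕ) :
    Coef_rev (dirS U₁ U₂ U₃ l₁ l₂ a b c) = dirS U₂ U₁ U₃ l₂ l₁ b a c := by
  have hl : (C l₁ + C l₂ * X : R[X]).natDegree ≤ 1 := by
    refine natDegree_add_le_of_degree_le ?_ ?_
    · rw [natDegree_C]; exact Nat.zero_le _
    · exact (natDegree_C_mul_le _ _).trans natDegree_X_le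
  have g1 := FrmMap_Gr.base U₁
  have g2 := FrmMap_Gr.resc (X : R[X]) natDegree_X_le U₂
  have g3 := FrmMap_Gr.resc (C l₁ + C l₂ * X : R[X]) hl U₃
  unfold dirS
  rw [Coef_rev_mul ((g1.pow a).mul (g2.pow b)) (g3.pow c), Coef_rev_mul (g1.pow a) (g2.pow b),
    Coef_rev_pow g1, Coef_rev_pow g2, Coef_rev_pow g3, Coef_rev_base, Coef_rev_resc, Coef_rev_lin]
  ring

theorem rev_frm {R : Type*} [CommRing R] (U₁ U₂ U₃ : PowerSeries R) (l₁ l₂ : R) (L L' : ℕ)
    (p : ℕ → ℕ → ℕ → ℤ) {k i : ℕ} (hi : i ≤ k) :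
    (frm U₂ U₁ U₃ l₂ l₁ L L' (fun b a c => p a b c) k).coeff i =
      (frm U₁ U₂ U₃ l₁ l₂ L L' p k).coeff (k - i) := by
  have key : ∀ a b c, (PowerSeries.coeff k (dirS U₂ U₁ U₃ l₂ l₁ b a c)).coeff i =
      (PowerSeries.coeff k (dirS U₁ U₂ U₃ l₁ l₂ a b c)).coeff (k - i) := by
    intro a b c
    rw [← Coef_rev_dirS]
    unfold Coef_rev
    rw [PowerSeries.coeff_mk, coeff_reflect, revAt_le hi]
  unfold frm
  simp only [Polynomial.finsetSum_coeff]
  rw [Finset.sum_comm]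
  refine Finset.sum_congr rfl fun a _ => ?_
  refine Finset.sum_congr rfl fun b _ => ?_
  refine Finset.sum_congr rfl fun c _ => ?_
  rw [← Polynomial.C_eq_intCast, Polynomial.coeff_C_mul, Polynomial.coeff_C_mul, key]

end Pool.Agent.LGO.E4
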