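import Mathlib

/-!
# LGO, engine 4, module Num: the size of the error term

Proof.  `m ≤ 2 M ≤ M²`, `a = m^k`, so `L = 4 m a² ≤ M^2 (M²)^(2k+1) = M^(4k+4) =: M^e` and
`O ≤ Z L² + 1 ≤ (Z + 1) L² ≤ M^(Z + 1 + 2 e)` (`Z + 1 ≤ 2^(Z + 1)`), `S ≤ O`.  The logarithm of
`8 S² 8^(S O) 2^O` is at most `log 8 + 2 log S + (S O) log 8 + O log 2 ≤ 3 + 2 O + 3 O² + O ≤ 9 O²
≤ M^(4 + 2 (Z + 1) + 4 e)` (`log S ≤ S ≤ O`, `O ≥ 1`; for `O = 0` also `S = 0` and the left side is `0`).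
-/

namespace Pool.Agent.LGO.E4

theorem num4 (k Z : ℕ) : ∃ C : ℕ, ∀ (M : ℝ) (m a L O S : ℕ), 2 ≤ M → (m : ℝ) ≤ 2 * M → a = m ^ k →
    L = 4 * m * a ^ 2 → O ≤ Z * L ^ 2 + 1 → S ≤ O → 1 ≤ m →
    8 * (S : ℝ) ^ 2 * 8 ^ (S * O) * 2 ^ O ≤ Real.exp (M ^ C) ∧ (L : ℝ) ^ 2 ≤ M ^ C := by
  refine ⟨22 + 16 * k + 2 * Z, ?_⟩
  intro M m a L O S hM hm ha hL hO hS h1
  have hM1 : (1 : ℝ) ≤ M := by linarith
  have hM0 : (0 : ℝ) ≤ M := by linarith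
  have h4 : (4 : ℝ) ≤ M ^ 2 := by nlinarith
  have hm2 : (m : ℝ) ≤ M ^ 2 := by nlinarith
  have ha2 : (a : ℝ) ≤ M ^ (2 * k) := by
    rw [ha]
    push_cast
    calc (m : ℝ) ^ k ≤ (M ^ 2) ^ k := pow_le_pow_left₀ (by positivity) hm2 k
      _ = M ^ (2 * k) := by rw [← pow_mul]
  have hLM : (L : ℝ) ≤ M ^ (4 * k + 4) := by
    rw [hL]
    push_cast
    calc 4 * (m : ℝ) * (a : ℝ) ^ 2 ≤ M ^ 2 * M ^ 2 * (M ^ (2 * k)) ^ 2 := by gcongr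
      _ = M ^ (4 * k + 4) := by rw [← pow_mul, ← pow_add, ← pow_add]; congr 1; ring
  have hL1 : 1 ≤ L := by
    have : 1 ≤ a := by rw [ha]; exact Nat.one_le_pow _ _ h1
    rw [hL]
    have h2 : 1 ≤ a ^ 2 := Nat.one_le_pow _ _ this
    nlinarith
  have hLL : (L : ℝ) ^ 2 ≤ M ^ (8 * k + 8) := by
    calc (L : ℝ) ^ 2 ≤ (M ^ (4 * k + 4)) ^ 2 := pow_le_pow_left₀ (by positivity) hLM 2
      _ = M ^ (8 * k + 8) := by rw [← pow_mul]; congr 1; ring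
  have hX1 : (1 : ℝ) ≤ M ^ (8 * k + 9 + Z) := one_le_pow₀ hM1
  have hOX : (O : ℝ) ≤ M ^ (8 * k + 9 + Z) := by
    have h9 : ((Z : ℝ) + 1) ≤ M ^ (Z + 1) := by
      have h10 : Z + 1 ≤ 2 ^ (Z + 1) := (Nat.lt_two_pow_self).le
      calc ((Z : ℝ) + 1) ≤ 2 ^ (Z + 1) := by exact_mod_cast h10
        _ ≤ M ^ (Z + 1) := pow_le_pow_left₀ (by norm_num) hM (Z + 1)
    have hL2 : (1 : ℝ) ≤ (L : ℝ) ^ 2 := one_le_pow₀ (by exact_mod_cast hL1)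
    have hO' : (O : ℝ) ≤ Z * (L : ℝ) ^ 2 + 1 := by exact_mod_cast hO
    calc (O : ℝ) ≤ ((Z : ℝ) + 1) * (L : ℝ) ^ 2 := by nlinarith
      _ ≤ M ^ (Z + 1) * M ^ (8 * k + 8) := by gcongr
      _ = M ^ (8 * k + 9 + Z) := by rw [← pow_add]; congr 1; ring
  refine ⟨?_, ?_⟩
  · have hSO : S ^ 2 ≤ 2 ^ (2 * O) := by
      have h5 : S ≤ 2 ^ O := hS.trans (Nat.lt_two_pow_self).le
      calc S ^ 2 ≤ (2 ^ O) ^ 2 := Nat.pow_le_pow_left h5 2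
        _ = 2 ^ (2 * O) := by rw [← pow_mul]; congr 1; ring
    have hnat : 8 * S ^ 2 * 8 ^ (S * O) * 2 ^ O ≤ 2 ^ (3 + 3 * O + 3 * O ^ 2) := by
      have h6 : 8 ^ (S * O) ≤ 2 ^ (3 * O ^ 2) := by
        calc 8 ^ (S * O) = 2 ^ (3 * (S * O)) := by
              rw [show (8 : ℕ) = 2 ^ 3 by norm_num, ← pow_mul]
          _ ≤ 2 ^ (3 * O ^ 2) := by
              apply Nat.pow_le_pow_right (by norm_num)
              have : S * O ≤ O * O := Nat.mul_le_mul_right O hS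
              nlinarith
      calc 8 * S ^ 2 * 8 ^ (S * O) * 2 ^ O ≤ 8 * 2 ^ (2 * O) * 2 ^ (3 * O ^ 2) * 2 ^ O := by
            gcongr
        _ = 2 ^ (3 + 3 * O + 3 * O ^ 2) := by
            rw [show (8 : ℕ) = 2 ^ 3 by norm_num, ← pow_add, ← pow_add, ← pow_add]
            congr 1
            ring
    have hreal : 8 * (S : ℝ) ^ 2 * 8 ^ (S * O) * 2 ^ O ≤ 2 ^ (3 + 3 * O + 3 * O ^ 2) := by
      exact_mod_cast hnat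
    have hexp : (2 : ℝ) ^ (3 + 3 * O + 3 * O ^ 2) ≤
        Real.exp ((3 + 3 * O + 3 * O ^ 2 : ℕ) : ℝ) := by
      have h2e : (2 : ℝ) ≤ Real.exp 1 := by
        have := Real.add_one_le_exp (1 : ℝ)
        linarith
      calc (2 : ℝ) ^ (3 + 3 * O + 3 * O ^ 2) ≤ (Real.exp 1) ^ (3 + 3 * O + 3 * O ^ 2) :=
            pow_le_pow_left₀ (by norm_num) h2e _
        _ = Real.exp ((3 + 3 * O + 3 * O ^ 2 : ℕ) : ℝ) := by
            rw [← Real.exp_nat_mul, mul_one]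
    refine hreal.trans (hexp.trans (Real.exp_le_exp.2 ?_))
    have h16 : (16 : ℝ) ≤ M ^ 4 := by
      calc (16 : ℝ) = 2 ^ 4 := by norm_num
        _ ≤ M ^ 4 := pow_le_pow_left₀ (by norm_num) hM 4
    have hO0 : (0 : ℝ) ≤ O := by positivity
    push_cast
    have hX : (O : ℝ) ^ 2 ≤ (M ^ (8 * k + 9 + Z)) ^ 2 := pow_le_pow_left₀ hO0 hOX 2
    have hX2 : (1 : ℝ) ≤ (M ^ (8 * k + 9 + Z)) ^ 2 := one_le_pow₀ hX1
    have hX3 : M ^ (8 * k + 9 + Z) ≤ (M ^ (8 * k + 9 + Z)) ^ 2 := by nlinarith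
    calc (3 : ℝ) + 3 * O + 3 * (O : ℝ) ^ 2 ≤ 16 * (M ^ (8 * k + 9 + Z)) ^ 2 := by nlinarith
      _ ≤ M ^ 4 * (M ^ (8 * k + 9 + Z)) ^ 2 := by gcongr
      _ = M ^ (22 + 16 * k + 2 * Z) := by rw [← pow_mul, ← pow_add]; congr 1; ring
  · exact hLL.trans (pow_le_pow_right₀ hM1 (by omega))

end Pool.Agent.LGO.E4
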