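import Pool.Agent.LGO.E4.Small
import Pool.Agent.LGO.E4.Num
import Pool.Agent.LGO.E3.Base
import Pool.Agent.LGO.E3.Num
import Pool.Agent.LGO.E3.NumB
import Pool.Agent.LGO.E3.Fin
import Pool.Agent.LGO.B.NmMeas

/-!
# LGO, engine 4: the core, with an abstract third function

`core_abs` serves the elliptic engine 4 (`E4/Fin.lean`) and the engine for `2 π i` (`LGO/U`).

Copy of `engine3'` in `E3/Fin.lean` (with `T ≤ 1`, so `t = 1`, `L = L' = 4 m a²`) with the following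
changes.
* `CB' := max` of `CB` and of the constant of `base4`; `c := 4 * CB'`, `κ := 4050 * c`.
* `base4` instead of `base` gives in addition that `map U` is the series `us (3/2 G2) (2 G3)`.
* Let `η = l₁ w₁ + l₂ w₂ - w₃` and suppose `‖η‖ < exp(-(M^C))`.  `θ := 1 + η / w₃`, so
  `l₁ w₁ + l₂ w₂ = θ w₃`, `‖θ - 1‖ = ‖η‖ / ‖w₃‖ ≤ exp(-M^C + CB' M² T) ≤ exp(-M^C')`
  (`C'` from `num4 k Z`, `M² T ≤ M²`, `C` large), so `hθ1` of `small4` holds for all `O ≤ Z L² + 1`,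
  `S ≤ O`; `1/2 ≤ ‖θ‖ ≤ 2`, and `‖θ w₃‖` lies between `exp(-G)` and `exp G` for
  `G = c M² T = 4 CB' M² T ≥ CB' M² T + 1`.
* `p` from `exists_p` (it is `≠ 0`).  If all forms of degree `≤ Z L²` vanish we are in the second case
  (`L ≤ L² ≤ M^C`, `num4`).  Otherwise `O` = the smallest degree of a nonzero form, `O ≤ Z L²`;
  `small4` instead of `small`: one factor `2` more, which is absorbed by `num_small` with `2 Q` instead of
  `Q` and `V + 1` instead of `V` (`2 Q ≤ exp(O (2 log O + 4 (V + 1) + 2))`);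
  `Y = S/4 - 3 log O - 6 (V + 1) - 7 G - 4`, and adapt `fin_c` (the constants are far from being sharp).
* `S = ⌊O / (4050 c M (4 m a²))⌋ ≤ O`.
-/

namespace Pool.Agent.LGO.E4

open Polynomial Pool.Agent.EllSch Pool.Agent.LGO.E3 Pool.Agent.LGO.Bs Filter Topology
open Pool.Agent.Schn (tay tay_congr tay_mul)

/-- `base` together with the identification of the series (same proof as `base` in
`E3/Base.lean`, see `Base_series`) -/
theorem base4 : ∃ C : ℕ, 1 ≤ C ∧ ∀ (K : IntermediateField ℚ ℂ) [FiniteDimensional ℚ K] (M T t : ℝ)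
    (w τ : ℂ), 2 ≤ M → (Module.finrank ℚ K : ℝ) ≤ M → 0 < T → 1 ≤ M * T → 0 < t → 1 ≤ M * t →
    Cur K M (M * T) t w τ →
    ∃ (s e : ℂ → ℂ) (U : PowerSeries K) (ν : ℕ), 1 ≤ ν ∧ (ν : ℝ) ≤ Real.exp (C * (M * T)) ∧
      Ar ν (Real.exp (C * (M * T))) U ∧ Loc w (PowerSeries.map (algebraMap K ℂ) U) s e ∧
      Gro C (C * (M ^ 2 * T)) t s e ∧ Wei w τ s e ∧
      Real.exp (-(C * (M ^ 2 * T))) ≤ ‖w‖ ∧ ‖w‖ ≤ Real.exp (C * (M ^ 2 * T)) ∧
      PowerSeries.map (algebraMap K ℂ) U = us (3 / 2 * G2 w (w * τ)) (2 * G3 w (w * τ)) := by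
  obtain ⟨C₁, hC₁, hgro⟩ := growth
  obtain ⟨C₂, hC₂, hsize⟩ := Base_size
  obtain ⟨C, hC⟩ := exists_nat_ge (max (C₁ + 3) (2 * C₂))
  have hC1 : C₁ + 3 ≤ C := (le_max_left _ _).trans hC
  have hC2 : 2 * C₂ ≤ C := (le_max_right _ _).trans hC
  refine ⟨C, by exact_mod_cast (by linarith : (1 : ℝ) ≤ C), ?_⟩
  intro K _ M T t w τ hM hfin hT hMT ht hMt h
  have hI : Ind w (w * τ) := by
    have := ind_smul (ind_one h.im_pos) h.w0
    rwa [mul_one] at this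
  obtain ⟨U, ν, hν, hνle, hAr, hmap⟩ := Base_series hMT hI h.g2 h.g3
  obtain ⟨s, e, hE⟩ := hgro w τ t h.w0 ht h.im
  obtain ⟨hlow, hup⟩ := hsize K M T t w τ hM hfin hT hMT h
  have hMT0 : 0 < M * T := by linarith
  have hM2T0 : 0 < M ^ 2 * T := by positivity
  refine ⟨s, e, U, ν, hν, hνle.trans (Real.exp_le_exp.2 (by nlinarith)),
    ⟨hAr.z0, hAr.int, fun σ n => (hAr.bd σ n).trans ?_⟩,
    ⟨hE.ds, hE.de, hE.ps, hE.pe, hE.e0, ?_⟩, ?_, hE.off, ?_, ?_, hmap⟩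
  · refine pow_le_pow_left₀ (Real.exp_pos _).le (Real.exp_le_exp.2 ?_) n
    nlinarith
  · rw [hmap, ← iu_tay_comp hI w, ← tay_mul (hE.de.analyticAt 0) (iu_comp_an hI w)]
    refine tay_congr ?_
    have hT : Tendsto (fun z : ℂ => w * z) (𝓝[≠] 0) (𝓝[≠] 0) := by
      rw [tendsto_nhdsWithin_iff]
      constructor
      · have : Tendsto (fun z : ℂ => w * z) (𝓝 0) (𝓝 (w * 0)) :=
          (continuous_const.mul continuous_id).tendsto 0
        rw [mul_zero] at this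
        exact this.mono_left nhdsWithin_le_nhds
      · filter_upwards [self_mem_nhdsWithin] with z hz
        exact mul_ne_zero h.w0 hz
    have h1 : ∀ᶠ z in 𝓝[≠] (0 : ℂ), s z = e z * Mul.iu w (w * τ) (w * z) := by
      filter_upwards [hT.eventually (Basic.eventually_off hI 0),
        hT.eventually (Mul.MulIu_eventually_ne hI)] with z hz1 hz2
      rw [hE.off z hz1, Mul.iu]
      field_simp
    have h2 : s 0 = e 0 * Mul.iu w (w * τ) (w * 0) := by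
      rw [mul_zero, Mul.iu_zero, mul_zero]
      refine hE.on 0 ?_
      rw [Basic.not_off_iff]
      exact ⟨0, by simp [lat]⟩
    rw [eventually_nhdsWithin_iff] at h1
    filter_upwards [h1] with z hz
    by_cases h0 : z = 0
    · rw [h0]; exact h2
    · exact hz h0
  · intro R z hR hz
    have hpos : 0 ≤ R ^ 2 / t + R := by positivity
    have hle1 : C₁ * (R ^ 2 / t + R) ≤ C * (R ^ 2 / t + R) := by gcongr; linarith
    constructor
    · refine (hE.bs R hR z hz).trans ?_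
      have hw2 : ‖w‖ ^ 2 ≤ Real.exp (2 * C₂ * (M ^ 2 * T)) := by
        calc ‖w‖ ^ 2 ≤ Real.exp (C₂ * (M ^ 2 * T)) ^ 2 := by gcongr
          _ = _ := by rw [← Real.exp_nat_mul]; congr 1; push_cast; ring
      calc ‖w‖ ^ 2 * Real.exp (C₁ * (R ^ 2 / t + R))
          ≤ Real.exp (2 * C₂ * (M ^ 2 * T)) * Real.exp (C * (R ^ 2 / t + R)) := by gcongr
        _ = Real.exp (C * (R ^ 2 / t + R) + 2 * C₂ * (M ^ 2 * T)) := by
          rw [← Real.exp_add, add_comm]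
        _ ≤ _ := Real.exp_le_exp.2 (by gcongr)
    · refine (hE.be R hR z hz).trans (Real.exp_le_exp.2 ?_)
      have : 0 ≤ (C : ℝ) * (M ^ 2 * T) := by positivity
      linarith
  · refine le_trans (Real.exp_le_exp.2 ?_) hlow
    nlinarith
  · refine hup.trans (Real.exp_le_exp.2 ?_)
    nlinarith

theorem fin4_gro {c c' G G' t : ℝ} {s e : ℂ → ℂ} (h : Gro c G t s e) (ht : 0 < t) (hc : c ≤ c')
    (hG : G ≤ G') : Gro c' G' t s e := by
  intro R z hR hz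
  have h1 : 0 ≤ R ^ 2 / t + R := by
    have : 0 ≤ R ^ 2 / t := by positivity
    linarith
  have h2 : c * (R ^ 2 / t + R) ≤ c' * (R ^ 2 / t + R) := mul_le_mul_of_nonneg_right hc h1
  exact ⟨(h R z hR hz).1.trans (Real.exp_le_exp.2 (by linarith)),
    (h R z hR hz).2.trans (Real.exp_le_exp.2 (by linarith))⟩

/-- `base4` with a larger constant -/
theorem base4_le : ∃ C₀ : ℕ, ∀ C : ℕ, C₀ ≤ C → 1 ≤ C ∧ ∀ (K : IntermediateField ℚ ℂ)
    [FiniteDimensional ℚ K] (M T t : ℝ)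
    (w τ : ℂ), 2 ≤ M → (Module.finrank ℚ K : ℝ) ≤ M → 0 < T → 1 ≤ M * T → 0 < t → 1 ≤ M * t →
    Cur K M (M * T) t w τ →
    ∃ (s e : ℂ → ℂ) (U : PowerSeries K) (ν : ℕ), 1 ≤ ν ∧ (ν : ℝ) ≤ Real.exp (C * (M * T)) ∧
      Ar ν (Real.exp (C * (M * T))) U ∧ Loc w (PowerSeries.map (algebraMap K ℂ) U) s e ∧
      Gro C (C * (M ^ 2 * T)) t s e ∧ Wei w τ s e ∧
      Real.exp (-(C * (M ^ 2 * T))) ≤ ‖w‖ ∧ ‖w‖ ≤ Real.exp (C * (M ^ 2 * T)) ∧
      PowerSeries.map (algebraMap K ℂ) U = us (3 / 2 * G2 w (w * τ)) (2 * G3 w (w * τ)) := by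
  obtain ⟨C₀, hC₀, h⟩ := base4
  refine ⟨C₀, fun C hC => ⟨hC₀.trans hC, ?_⟩⟩
  intro K _ M T t w τ hM hfin hT hMT ht hMt hc
  obtain ⟨s, e, U, ν, h1, h2, h3, h4, h5, h6, h7, h8, h9⟩ := h K M T t w τ hM hfin hT hMT ht hMt hc
  have hCR : (C₀ : ℝ) ≤ C := by exact_mod_cast hC
  have hM2T : 0 ≤ M ^ 2 * T := by positivity
  have e1 : (C₀ : ℝ) * (M * T) ≤ C * (M * T) := mul_le_mul_of_nonneg_right hCR (by linarith)
  have e2 : (C₀ : ℝ) * (M ^ 2 * T) ≤ C * (M ^ 2 * T) := mul_le_mul_of_nonneg_right hCR hM2T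
  exact ⟨s, e, U, ν, h1, h2.trans (Real.exp_le_exp.2 e1),
    ⟨h3.z0, h3.int, fun σ n => (h3.bd σ n).trans
      (pow_le_pow_left₀ (Real.exp_pos _).le (Real.exp_le_exp.2 e1) n)⟩, h4,
    fin4_gro h5 ht hCR e2, h6, (Real.exp_le_exp.2 (by linarith)).trans h7,
    h8.trans (Real.exp_le_exp.2 e2), h9⟩

/-- the choice of the exponent -/
theorem fin4_C {M : ℝ} (hM : 2 ≤ M) (C₁ CB : ℕ) :
    M ^ C₁ + CB * M ^ 2 ≤ M ^ (C₁ + CB + 3) ∧ M ^ C₁ ≤ M ^ (C₁ + CB + 3) := by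
  have h1 : (1 : ℝ) ≤ M ^ C₁ := one_le_pow₀ (by linarith)
  have h2 : ((CB : ℝ) + 1) ≤ M ^ CB := by
    have h3 : (CB : ℝ) + 1 ≤ 2 ^ CB := by
      have := Nat.lt_two_pow_self (n := CB)
      exact_mod_cast this
    exact h3.trans (pow_le_pow_left₀ (by norm_num) hM _)
  have h4 : (4 : ℝ) ≤ M ^ 2 := by nlinarith
  have hCB : (0 : ℝ) ≤ CB := Nat.cast_nonneg _
  refine ⟨?_, pow_le_pow_right₀ (by linarith) (by omega)⟩
  have e : M ^ (C₁ + CB + 3) = M ^ C₁ * M ^ CB * (M ^ 2 * M) := by ring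
  rw [e]
  have h5 : M ^ 2 * 2 ≤ M ^ 2 * M := by nlinarith
  calc M ^ C₁ + CB * M ^ 2 ≤ M ^ C₁ * ((CB : ℝ) + 1) * (M ^ 2 * 2) := by
        have h6 : (CB : ℝ) * M ^ 2 ≤ M ^ C₁ * (CB * M ^ 2) :=
          le_mul_of_one_le_left (by positivity) h1
        have h7 : M ^ C₁ ≤ M ^ C₁ * M ^ 2 := le_mul_of_one_le_right (by positivity) (by linarith)
        have h8 : 0 ≤ M ^ C₁ * (CB * M ^ 2) := by positivity
        have h9 : 0 ≤ M ^ C₁ * M ^ 2 := by positivity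
        nlinarith
    _ ≤ M ^ C₁ * M ^ CB * (M ^ 2 * M) := by gcongr

/-- the size of `θ` -/
theorem fin4_theta {w₃ η : ℂ} {g G : ℝ} (hw : w₃ ≠ 0) (hlo : Real.exp (-g) ≤ ‖w₃‖)
    (hup : ‖w₃‖ ≤ Real.exp g) (hgG : g + 1 ≤ G) (hη : ‖1 + η / w₃ - 1‖ ≤ 1 / 2) :
    Real.exp (-G) ≤ ‖(1 + η / w₃) * w₃‖ ∧ ‖(1 + η / w₃) * w₃‖ ≤ Real.exp G := by
  set θ : ℂ := 1 + η / w₃ with hθ
  have h1 : ‖θ‖ ≤ 2 := by
    have : ‖θ‖ ≤ ‖θ - 1‖ + ‖(1 : ℂ)‖ := by
      calc ‖θ‖ = ‖(θ - 1) + 1‖ := by ring_nf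
        _ ≤ _ := norm_add_le _ _
    rw [norm_one] at this
    linarith
  have h2 : 1 / 2 ≤ ‖θ‖ := by
    have : ‖(1 : ℂ)‖ ≤ ‖θ‖ + ‖θ - 1‖ := by
      calc ‖(1 : ℂ)‖ = ‖θ - (θ - 1)‖ := by ring_nf
        _ ≤ _ := norm_sub_le _ _
    rw [norm_one] at this
    linarith
  have h3 : (2 : ℝ) ≤ Real.exp 1 := by
    have := Real.add_one_le_exp (1 : ℝ)
    linarith
  have h4 : Real.exp (-1) ≤ 1 / 2 := by
    rw [Real.exp_neg, one_div]
    exact inv_anti₀ (by norm_num) h3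
  rw [norm_mul]
  constructor
  · calc Real.exp (-G) ≤ Real.exp (-1) * Real.exp (-g) := by
          rw [← Real.exp_add]
          exact Real.exp_le_exp.2 (by linarith)
      _ ≤ ‖θ‖ * ‖w₃‖ := mul_le_mul (h4.trans h2) hlo (Real.exp_pos _).le (norm_nonneg _)
  · calc ‖θ‖ * ‖w₃‖ ≤ Real.exp 1 * Real.exp g :=
          mul_le_mul (h1.trans h3) hup (norm_nonneg _) (Real.exp_pos _).le
      _ ≤ Real.exp G := by
          rw [← Real.exp_add]
          exact Real.exp_le_exp.2 (by linarith)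

theorem core_abs (CB Z : ℕ) : ∃ C : ℕ, ∀ (K : IntermediateField ℚ ℂ) [FiniteDimensional ℚ K]
    (M T : ℝ) (w₁ τ₁ w₂ τ₂ w₃ γ l₁ l₂ : ℂ) (s₃ e₃ : ℂ → ℂ) (U₃ : PowerSeries K) (ν₃ : ℕ), 2 ≤ M →
    (Module.finrank ℚ K : ℝ) ≤ M → 0 < T → T ≤ 1 → 1 ≤ M * T →
    Cur K M (M * T) T w₁ τ₁ → Cur K M (M * T) T w₂ τ₂ →
    Gen γ (Lt w₁ τ₁) (Lt w₂ τ₂) → Bd K (M * T) γ → (∀ r : ℚ, w₂ ≠ r * γ * w₁) →
    Bd K (M * T) l₁ → Bd K (M * T) l₂ →
    1 ≤ ν₃ → (ν₃ : ℝ) ≤ Real.exp (CB * (M * T)) → Ar ν₃ (Real.exp (CB * (M * T))) U₃ →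
    Loc w₃ (PowerSeries.map (algebraMap K ℂ) U₃) s₃ e₃ →
    Gro CB (CB * (M ^ 2 * T)) (1 / M) s₃ e₃ →
    Real.exp (-(CB * (M ^ 2 * T))) ≤ ‖w₃‖ → ‖w₃‖ ≤ Real.exp (CB * (M ^ 2 * T)) →
    Real.exp (-(M ^ C)) ≤ ‖l₁ * w₁ + l₂ * w₂ - w₃‖ ∨
    ∃ (L : ℕ) (p : ℕ → ℕ → ℕ → ℤ), (L : ℝ) ^ 2 ≤ M ^ C ∧
      (∃ a < L, ∃ b < L, ∃ c < L, p a b c ≠ 0) ∧
      ∀ j ≤ Z * L ^ 2, frm (us (3 / 2 * G2 w₁ (w₁ * τ₁)) (2 * G3 w₁ (w₁ * τ₁)))
        (us (3 / 2 * G2 w₂ (w₂ * τ₂)) (2 * G3 w₂ (w₂ * τ₂)))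
        (PowerSeries.map (algebraMap K ℂ) U₃) l₁ l₂ L L p j = 0 := by
  obtain ⟨C₂, hclose⟩ := close_main
  obtain ⟨C₀, hC₀⟩ := base4_le
  obtain ⟨CB', hCB'_def⟩ : ∃ n : ℕ, n = max CB C₀ := ⟨_, rfl⟩
  have hCBle : CB ≤ CB' := hCB'_def ▸ le_max_left _ _
  obtain ⟨hCB, hbase⟩ := hC₀ CB' (hCB'_def ▸ le_max_right _ _)
  set cb : ℝ := (CB' : ℝ) with hcb_def
  have hcb : 1 ≤ cb := by rw [hcb_def]; exact_mod_cast hCB
  set c : ℝ := 4 * cb with hc_def
  have hc : 1 ≤ c := by rw [hc_def]; linarith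
  set κ : ℝ := 4050 * c with hκ_def
  have hκ : 1 ≤ κ := by rw [hκ_def]; linarith
  obtain ⟨k, hk1, hnum⟩ := E3.num C₂ κ hκ
  obtain ⟨C₁, hnum4⟩ := num4 k Z
  refine ⟨C₁ + CB' + 3, ?_⟩
  intro K _ M T w₁ τ₁ w₂ τ₂ w₃ γ l₁ l₂ s₃ e₃ U₃ ν₃ hM hfin hT hT1 hMT c₁ c₂ hγ hγB hrat hl₁ hl₂
    hν₃ hν₃V' a₃' loc₃ gr₃' lo₃' up₃'
  have hM0 : 0 < M := by linarith
  obtain ⟨hC1, hC2⟩ := fin4_C hM C₁ CB'
  have hCR : (CB : ℝ) ≤ cb := by rw [hcb_def]; exact_mod_cast hCBle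
  have hCR1 : (CB : ℝ) * (M * T) ≤ cb * (M * T) := mul_le_mul_of_nonneg_right hCR (by linarith)
  have hCR2 : (CB : ℝ) * (M ^ 2 * T) ≤ cb * (M ^ 2 * T) :=
    mul_le_mul_of_nonneg_right hCR (by positivity)
  have hν₃V : (ν₃ : ℝ) ≤ Real.exp (cb * (M * T)) := hν₃V'.trans (Real.exp_le_exp.2 hCR1)
  have a₃ : Ar ν₃ (Real.exp (cb * (M * T))) U₃ := ⟨a₃'.z0, a₃'.int, fun σ n =>
    (a₃'.bd σ n).trans (pow_le_pow_left₀ (Real.exp_pos _).le (Real.exp_le_exp.2 hCR1) n)⟩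
  have gr₃ : Gro cb (cb * (M ^ 2 * T)) (1 / M) s₃ e₃ := fin4_gro gr₃' (by positivity) hCR hCR2
  have lo₃ : Real.exp (-(cb * (M ^ 2 * T))) ≤ ‖w₃‖ :=
    (Real.exp_le_exp.2 (by linarith)).trans lo₃'
  have up₃ : ‖w₃‖ ≤ Real.exp (cb * (M ^ 2 * T)) := up₃'.trans (Real.exp_le_exp.2 hCR2)
  obtain ⟨r1, r2, r3, r4, r5, r6⟩ := fin_r hc hM hT hMT
  obtain ⟨q1, q2, q3, q4, q5, q6⟩ := fin_r hcb hM hT hMT
  obtain ⟨s₁, e₁, U₁, ν₁, hν₁, hν₁V, a₁, loc₁, gr₁, we₁, lo₁, up₁, us₁⟩ :=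
    hbase K M T T w₁ τ₁ hM hfin hT hMT hT hMT c₁
  obtain ⟨s₂, e₂, U₂, ν₂, hν₂, hν₂V, a₂, loc₂, gr₂, we₂, lo₂, up₂, us₂⟩ :=
    hbase K M T T w₂ τ₂ hM hfin hT hMT hT hMT c₂
  obtain ⟨n₁, hn₁, hn₁V, hn₁i⟩ := hl₁.den
  obtain ⟨n₂, hn₂, hn₂V, hn₂i⟩ := hl₂.den
  set l₁' : K := ⟨l₁, hl₁.mem⟩ with hl₁'
  set l₂' : K := ⟨l₂, hl₂.mem⟩ with hl₂'
  set A : ℝ := Real.exp (cb * (M * T)) with hA_def
  have hA : 1 ≤ A := Real.one_le_exp (by linarith)
  set ν : ℕ := ν₁ * (ν₂ * ν₃ * (n₁ * n₂)) with hν_def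
  have hν : 1 ≤ ν := by
    rw [hν_def]
    have : 0 < ν₁ * (ν₂ * ν₃ * (n₁ * n₂)) := by positivity
    exact this
  set V₀ : ℝ := 5 * (cb * (M * T)) with hV₀_def
  have hV₀ : 0 ≤ V₀ := by rw [hV₀_def]; linarith
  set V : ℝ := 5 * (c * (M * T)) with hV_def
  have hV : 0 ≤ V := by rw [hV_def]; linarith
  have hVV : V₀ + 1 ≤ V := by
    rw [hV_def, hV₀_def, hc_def]
    have : 4 * cb * (M * T) = 4 * (cb * (M * T)) := by ring
    rw [this]
    linarith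
  have hνV₀ : (ν : ℝ) ≤ Real.exp V₀ := by
    have e : Real.exp V₀ = Real.exp (cb * (M * T)) * (Real.exp (cb * (M * T)) *
        Real.exp (cb * (M * T)) * (Real.exp (cb * (M * T)) * Real.exp (cb * (M * T)))) := by
      rw [← Real.exp_add, ← Real.exp_add, ← Real.exp_add, hV₀_def]
      congr 1
      ring
    have h1 : (n₁ : ℝ) ≤ Real.exp (cb * (M * T)) := hn₁V.trans (Real.exp_le_exp.2 q2)
    have h2 : (n₂ : ℝ) ≤ Real.exp (cb * (M * T)) := hn₂V.trans (Real.exp_le_exp.2 q2)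
    rw [e, hν_def]
    push_cast
    gcongr
  have hAV₀ : A ≤ Real.exp V₀ := by
    rw [hA_def, hV₀_def]
    exact Real.exp_le_exp.2 (by linarith)
  have hνV : (ν : ℝ) ≤ Real.exp V := hνV₀.trans (Real.exp_le_exp.2 (by linarith))
  have hAV : A ≤ Real.exp V := hAV₀.trans (Real.exp_le_exp.2 (by linarith))
  have b₁ : Ar ν A U₁ := a₁.mono (by linarith) _ le_rfl
  have b₂ : Ar ν A U₂ := by
    have := a₂.mono (by linarith) (ν₁ * (ν₃ * (n₁ * n₂))) (le_refl A)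
    have e : ν = ν₂ * (ν₁ * (ν₃ * (n₁ * n₂))) := by rw [hν_def]; ring
    rw [e]; exact this
  have b₃ : Ar ν A U₃ := by
    have := a₃.mono (by linarith) (ν₁ * (ν₂ * (n₁ * n₂))) (le_refl A)
    have e : ν = ν₃ * (ν₁ * (ν₂ * (n₁ * n₂))) := by rw [hν_def]; ring
    rw [e]; exact this
  have i₁ : IsIntegral ℤ ((ν : K) * l₁') := by
    apply intK
    have e : algebraMap K ℂ ((ν : K) * l₁') = ((ν₁ * (ν₂ * ν₃ * n₂) : ℕ) : ℂ) * ((n₁ : ℂ) * l₁) := by
      rw [map_mul, map_natCast, hν_def, hl₁']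
      change _ * l₁ = _
      push_cast
      ring
    rw [e]
    exact (isIntegral_algebraMap (R := ℤ) (A := ℂ)
      (x := ((ν₁ * (ν₂ * ν₃ * n₂) : ℕ) : ℤ))).mul hn₁i |> fun h => by simpa using h
  have i₂ : IsIntegral ℤ ((ν : K) * l₂') := by
    apply intK
    have e : algebraMap K ℂ ((ν : K) * l₂') = ((ν₁ * (ν₂ * ν₃ * n₁) : ℕ) : ℂ) * ((n₂ : ℂ) * l₂) := by
      rw [map_mul, map_natCast, hν_def, hl₂']
      change _ * l₂ = _
      push_cast
      ring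
    rw [e]
    exact (isIntegral_algebraMap (R := ℤ) (A := ℂ)
      (x := ((ν₁ * (ν₂ * ν₃ * n₁) : ℕ) : ℤ))).mul hn₂i |> fun h => by simpa using h
  have hle : Real.exp (M * T) ≤ A := Real.exp_le_exp.2 q2
  have bl₁ : ∀ σ : K →+* ℂ, ‖σ l₁'‖ ≤ A := fun σ => (hl₁.house σ).trans hle
  have bl₂ : ∀ σ : K →+* ℂ, ‖σ l₂'‖ ≤ A := fun σ => (hl₂.house σ).trans hle
  -- parameters
  set m : ℕ := ⌈M⌉₊ with hm_def
  have hmM : M ≤ m := Nat.le_ceil M
  have hm2M : (m : ℝ) ≤ 2 * M := by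
    have := Nat.ceil_lt_add_one hM0.le
    rw [← hm_def] at this
    linarith
  have hm2 : 2 ≤ m := by
    have : (2 : ℝ) ≤ m := hM.trans hmM
    exact_mod_cast this
  have hmfin : Module.finrank ℚ K ≤ m := by
    have : (Module.finrank ℚ K : ℝ) ≤ m := hfin.trans hmM
    exact_mod_cast this
  obtain ⟨t, ht_def⟩ : ∃ t : ℕ, t = 1 := ⟨1, rfl⟩
  have ht : 1 ≤ t := ht_def.ge
  have htR : (t : ℝ) = 1 := by rw [ht_def]; norm_num
  have htT : T ≤ t := by rw [htR]; exact hT1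
  have htT' : (t : ℝ) ≤ T + 1 := by rw [htR]; linarith
  set a : ℕ := m ^ k with ha_def
  obtain ⟨p, hpne, hplow, hpP⟩ := exists_p (E3.siegel K) hν hA b₁ b₂ b₃ i₁ i₂ bl₁ bl₂ m a t hmfin
    (Nat.one_le_pow _ _ (by omega)) ht
  set P : ℝ := 5 * (4 * m * a ^ 2 * t) ^ 2 * (4 * m * a ^ 2) *
        ((4 * m * a ^ 3 * t).factorial * (ν : ℝ) ^ (2 * (4 * m * a ^ 3 * t)) *
          (4 * A ^ 2) ^ (4 * m * a ^ 3 * t)) with hP_def
  set L : ℕ := 4 * m * a ^ 2 * t with hL_def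
  set L' : ℕ := 4 * m * a ^ 2 with hL'_def
  have hLL : L = L' := by rw [hL_def, hL'_def, ht_def, mul_one]
  have hw₁ : w₁ ≠ 0 := c₁.w0
  have hw₂ : w₂ ≠ 0 := c₂.w0
  have hw₃ : w₃ ≠ 0 := norm_pos_iff.1 ((Real.exp_pos _).trans_le lo₃)
  -- complex versions
  have hmap : ∀ j, (frm U₁ U₂ U₃ l₁' l₂' L L' p j).map (algebraMap K ℂ) =
      frm (PowerSeries.map (algebraMap K ℂ) U₁) (PowerSeries.map (algebraMap K ℂ) U₂)
        (PowerSeries.map (algebraMap K ℂ) U₃) l₁ l₂ L L' p j := fun j =>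
    map_frm (algebraMap K ℂ) U₁ U₂ U₃ l₁' l₂' L L' p j
  by_cases hall : ∀ j ≤ Z * L ^ 2, frm U₁ U₂ U₃ l₁' l₂' L L' p j = 0
  · -- all forms of small degree vanish
    right
    have h2 := (hnum4 M m a L 0 0 hM hm2M ha_def (by rw [hLL]) (by omega) le_rfl (by omega)).2
    refine ⟨L, p, h2.trans hC2, ?_, fun j hj => ?_⟩
    · rw [← hLL] at hpne
      exact hpne
    · have h3 := hmap j
      rw [hall j hj, Polynomial.map_zero, ← hLL, us₁, us₂] at h3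
      exact h3.symm
  · left
    by_contra hη
    push Not at hη
    push Not at hall
    obtain ⟨j₀, hj₀, hj₀'⟩ := hall
    have hex : ∃ j, frm U₁ U₂ U₃ l₁' l₂' L L' p j ≠ 0 := ⟨j₀, hj₀'⟩
    classical
    set O : ℕ := Nat.find hex with hO_def
    have hO : frm U₁ U₂ U₃ l₁' l₂' L L' p O ≠ 0 := Nat.find_spec hex
    have hOle : O ≤ Z * L ^ 2 := (Nat.find_min' hex hj₀').trans hj₀
    have hlow : ∀ j < O, frm U₁ U₂ U₃ l₁' l₂' L L' p j = 0 := fun j hj => by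
      have := Nat.find_min hex hj
      push Not at this
      exact this
    have hNO : 4 * m * a ^ 3 * t ≤ O := by
      by_contra hcon
      push Not at hcon
      exact hO (hplow O hcon)
    obtain ⟨hκa, hfinal⟩ := hnum M T m a t O hM hT hMT hmM hm2M ha_def ht htT htT' hNO
    have ha270 : 270 * c ≤ a := by rw [hκ_def] at hκa; linarith
    have ha2 : 2 ≤ a := by
      have : (2 : ℝ) ≤ a := by linarith
      exact_mod_cast this
    have hO64 : 64 ≤ O := by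
      refine le_trans ?_ hNO
      have h1 : 2 ^ 3 ≤ a ^ 3 := Nat.pow_le_pow_left ha2 3
      calc 64 = 4 * 2 * 2 ^ 3 * 1 := by norm_num
        _ ≤ 4 * m * a ^ 3 * t := by gcongr
    have hO0 : (0 : ℝ) < O := by
      have : (64 : ℝ) ≤ O := by exact_mod_cast hO64
      linarith
    set G : ℝ := c * (M ^ 2 * T) with hG_def
    have hG : 0 ≤ G := by rw [hG_def]; positivity
    have hgG : cb * (M ^ 2 * T) + 1 ≤ G := by
      rw [hG_def, hc_def]
      have : 4 * cb * (M ^ 2 * T) = 4 * (cb * (M ^ 2 * T)) := by ring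
      rw [this]
      linarith
    set S : ℕ := ⌊(O : ℝ) / (4050 * c * M * (4 * m * a ^ 2))⌋₊ with hS_def
    have hm0 : (0 : ℝ) < m := by exact_mod_cast (by omega : 0 < m)
    have ha0 : (0 : ℝ) < a := by exact_mod_cast (by omega : 0 < a)
    have hden : (0 : ℝ) < 4050 * c * M * (4 * m * a ^ 2) := by positivity
    have hS1 : (S : ℝ) ≤ O / (4050 * c * M * (4 * m * a ^ 2)) := Nat.floor_le (by positivity)
    have hS2 : O / (4050 * c * M * (4 * m * a ^ 2)) < S + 1 := Nat.lt_floor_add_one _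
    have hSO : S ≤ O := by
      have h1 : (1 : ℝ) ≤ 4050 * c * M * (4 * m * a ^ 2) := by
        have e1 : (1 : ℝ) ≤ 4050 * c * M := by nlinarith
        have e2 : (1 : ℝ) ≤ 4 * m * a ^ 2 := by
          have f1 : (1 : ℝ) ≤ m := by exact_mod_cast (by omega : 1 ≤ m)
          have f2 : (1 : ℝ) ≤ (a : ℝ) ^ 2 := one_le_pow₀ (by exact_mod_cast (by omega : 1 ≤ a))
          nlinarith
        exact one_le_mul_of_one_le_of_one_le e1 e2
      have h2 : (S : ℝ) ≤ O := hS1.trans (div_le_self hO0.le h1)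
      exact_mod_cast h2
    set Q : ℝ := (4 * m * a ^ 2 * t : ℝ) ^ 2 * (4 * m * a ^ 2) * P with hQ_def
    have hQ₀ : Q ≤ Real.exp (O * (2 * Real.log O + 4 * V₀ + 2)) :=
      num_P hm2 ha2 ht hNO hν hV₀ hνV₀ hA hAV₀
    have hQ2 : 2 * Q ≤ Real.exp (O * (2 * Real.log O + 4 * V + 2)) := by
      have h1 : (2 : ℝ) ≤ Real.exp (O * 4) := by
        have := Real.add_one_le_exp ((O : ℝ) * 4)
        have h64 : (64 : ℝ) ≤ O := by exact_mod_cast hO64
        linarith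
      calc 2 * Q ≤ Real.exp (O * 4) * Real.exp (O * (2 * Real.log O + 4 * V₀ + 2)) := by gcongr
        _ = Real.exp (O * (2 * Real.log O + 4 * (V₀ + 1) + 2)) := by
            rw [← Real.exp_add]
            congr 1
            ring
        _ ≤ _ := by
            apply Real.exp_le_exp.2
            gcongr
    have hQ0 : 0 ≤ Q := by rw [hQ_def, hP_def]; positivity
    have hQ : Q ≤ Real.exp (O * (2 * Real.log O + 4 * V + 2)) := by linarith
    set X : ℝ := (8 * Real.log O + 44 * c * (M ^ 2 * T)) / T with hX_def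
    have hXT : X * T = 8 * Real.log O + 44 * c * (M ^ 2 * T) := by
      rw [hX_def]; field_simp
    have hlogO : 0 ≤ Real.log O := Real.log_nonneg (by
      have : (64 : ℝ) ≤ O := by exact_mod_cast hO64
      linarith)
    set Y : ℝ := S / 4 - 3 * Real.log O - 6 * V - 7 * G - 4 with hY_def
    -- the polynomial
    set f : K[X] := frm U₁ U₂ U₃ l₁' l₂' L L' p O with hf_def
    set D : K := (O.factorial : K) * (ν : K) ^ (2 * O) with hD_def
    set q : ℂ[X] := (Polynomial.C D * f).map (algebraMap K ℂ) with hq_def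
    have hDne : D ≠ 0 := by
      rw [hD_def]
      have h1 : (O.factorial : K) ≠ 0 := by exact_mod_cast O.factorial_ne_zero
      have h2 : (ν : K) ≠ 0 := by exact_mod_cast (by omega : ν ≠ 0)
      exact mul_ne_zero h1 (pow_ne_zero _ h2)
    have hqc : ∀ i, q.coeff i = ((D * f.coeff i : K) : ℂ) := by
      intro i
      rw [hq_def, Polynomial.coeff_map, Polynomial.coeff_C_mul]
      rfl
    have hq0 : q ≠ 0 := by
      rw [hq_def, Ne, Polynomial.map_eq_zero_iff (algebraMap K ℂ).injective]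
      exact mul_ne_zero (Polynomial.C_ne_zero.2 hDne) hO
    have hqdeg : q.natDegree ≤ O := by
      refine (Polynomial.natDegree_map_le).trans ?_
      refine (Polynomial.natDegree_C_mul_le _ _).trans ?_
      exact natDegree_frm _ _ _ _ _ _ _ _ _
    have hmem : ∀ i, q.coeff i ∈ K := fun i => by rw [hqc]; exact (D * f.coeff i : K).2
    have hint : ∀ i, IsIntegral ℤ (q.coeff i) := fun i => by
      rw [hqc]
      have h1 := frm_int b₁ b₂ b₃ i₁ i₂ L L' p O i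
      exact h1.algebraMap (B := ℂ)
    have hhouse : ∀ (i : ℕ) (σ : K →+* ℂ), ‖σ ⟨q.coeff i, hmem i⟩‖ ≤ Real.exp (O * (X * T)) := by
      intro i σ
      have e : (⟨q.coeff i, hmem i⟩ : K) = D * f.coeff i := Subtype.ext (hqc i)
      rw [e, map_mul, norm_mul, hD_def, map_mul, map_pow, map_natCast, map_natCast, norm_mul,
        norm_pow, Complex.norm_natCast, Complex.norm_natCast]
      have h1 := frm_bd hA b₁ b₂ b₃ σ (bl₁ σ) (bl₂ σ) L L' p P hpP O i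
      have h2 := num_house (O := O) (by omega) hν hV hνV hA hAV hQ
      have h3 : (L : ℝ) ^ 2 * L' * P = Q := by
        rw [hQ_def, hL_def, hL'_def]
        push_cast
        ring
      rw [h3] at h1
      calc (O.factorial : ℝ) * (ν : ℝ) ^ (2 * O) * ‖σ (f.coeff i)‖
          ≤ O.factorial * (ν : ℝ) ^ (2 * O) * (Q * (4 * A ^ 2) ^ O) := by
            apply mul_le_mul_of_nonneg_left h1 (by positivity)
        _ ≤ _ := h2
        _ ≤ _ := by
            apply Real.exp_le_exp.2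
            apply mul_le_mul_of_nonneg_left _ hO0.le
            rw [hXT, hV_def]
            linarith
    have hl₂G : ‖l₂‖ ≤ Real.exp G := by
      have h1 := hl₂.house (algebraMap K ℂ)
      change ‖l₂‖ ≤ _ at h1
      refine h1.trans (Real.exp_le_exp.2 ?_)
      rw [hG_def]
      linarith
    have hSbig : κ * (Real.log O + M ^ 2 * T +
        T * (κ * ((Real.log O + M ^ 2 * T) / T)) ^ C₂) < S + 1 := hfinal.trans hS2
    have hZ : 0 ≤ T * (κ * ((Real.log O + M ^ 2 * T) / T)) ^ C₂ := by positivity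
    have hSpos : 1 ≤ S := by
      have h1 : (1 : ℝ) * (0 + 1 + 0) ≤ κ * (Real.log O + M ^ 2 * T +
        T * (κ * ((Real.log O + M ^ 2 * T) / T)) ^ C₂) := by gcongr
      have h2 : (0 : ℝ) < S := by linarith
      exact_mod_cast h2
    -- the number `θ`
    set η : ℂ := l₁ * w₁ + l₂ * w₂ - w₃ with hη_def
    set θ : ℂ := 1 + η / w₃ with hθ_def
    have hlθ : l₁ * w₁ + l₂ * w₂ = θ * w₃ := by
      rw [hθ_def, add_mul, one_mul, div_mul_cancel₀ _ hw₃, hη_def]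
      ring
    have hw₃n : 0 < ‖w₃‖ := norm_pos_iff.2 hw₃
    have hθn : ‖θ - 1‖ ≤ Real.exp (-(M ^ C₁)) := by
      have e1 : θ - 1 = η / w₃ := by rw [hθ_def]; ring
      rw [e1, norm_div, div_le_iff₀ hw₃n]
      have h1 : cb * (M ^ 2 * T) ≤ cb * M ^ 2 := by
        have : M ^ 2 * T ≤ M ^ 2 := mul_le_of_le_one_right (by positivity) hT1
        exact mul_le_mul_of_nonneg_left this (by linarith)
      calc ‖η‖ ≤ Real.exp (-(M ^ (C₁ + CB' + 3))) := hη.le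
        _ ≤ Real.exp (-(M ^ C₁)) * Real.exp (-(cb * (M ^ 2 * T))) := by
            rw [← Real.exp_add]
            exact Real.exp_le_exp.2 (by linarith)
        _ ≤ Real.exp (-(M ^ C₁)) * ‖w₃‖ := mul_le_mul_of_nonneg_left lo₃ (Real.exp_pos _).le
    have hθ1 : 8 * (S : ℝ) ^ 2 * 8 ^ (S * O) * 2 ^ O * ‖θ - 1‖ ≤ 1 := by
      have h1 := (hnum4 M m a L O S hM hm2M ha_def (by rw [hLL]) (by omega) hSO (by omega)).1
      calc 8 * (S : ℝ) ^ 2 * 8 ^ (S * O) * 2 ^ O * ‖θ - 1‖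
          ≤ Real.exp (M ^ C₁) * Real.exp (-(M ^ C₁)) :=
            mul_le_mul h1 hθn (norm_nonneg _) (Real.exp_pos _).le
        _ = 1 := by rw [← Real.exp_add, add_neg_cancel, Real.exp_zero]
    have hθ2 : ‖θ - 1‖ ≤ 1 / 2 := by
      have hS1' : (1 : ℝ) ≤ S := by exact_mod_cast hSpos
      have h1 : (1 : ℝ) ≤ (S : ℝ) ^ 2 * 8 ^ (S * O) * 2 ^ O := by
        refine one_le_mul_of_one_le_of_one_le (one_le_mul_of_one_le_of_one_le
          (one_le_pow₀ hS1') (one_le_pow₀ (by norm_num))) (one_le_pow₀ (by norm_num))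
      have h2 : 8 * ‖θ - 1‖ ≤ 8 * (S : ℝ) ^ 2 * 8 ^ (S * O) * 2 ^ O * ‖θ - 1‖ := by
        calc 8 * ‖θ - 1‖ = 8 * ‖θ - 1‖ * 1 := by ring
          _ ≤ 8 * ‖θ - 1‖ * ((S : ℝ) ^ 2 * 8 ^ (S * O) * 2 ^ O) :=
              mul_le_mul_of_nonneg_left h1 (by positivity)
          _ = _ := by ring
      linarith
    have hθw : Real.exp (-G) ≤ ‖θ * w₃‖ ∧ ‖θ * w₃‖ ≤ Real.exp G :=
      fin4_theta hw₃ lo₃ up₃ hgG hθ2
    have hgG' : cb * (M ^ 2 * T) ≤ G := by linarith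
    have lo₁' : Real.exp (-G) ≤ ‖w₁‖ := (Real.exp_le_exp.2 (by linarith)).trans lo₁
    have lo₂' : Real.exp (-G) ≤ ‖w₂‖ := (Real.exp_le_exp.2 (by linarith)).trans lo₂
    have up₁' : ‖w₁‖ ≤ Real.exp G := up₁.trans (Real.exp_le_exp.2 hgG')
    have up₂' : ‖w₂‖ ≤ Real.exp G := up₂.trans (Real.exp_le_exp.2 hgG')
    have hsmall : ∀ j : ℕ, 4 * j ≤ O →
        ‖(taylor (w₂ / w₁) q).coeff j‖ ≤ Real.exp (-(O * Y)) := by
      intro j hj
      have h1 := small4 loc₁ loc₂ loc₃ (by linarith : (0 : ℝ) ≤ cb) hG hT (by positivity)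
        (fin4_gro gr₁ hT le_rfl hgG') (fin4_gro gr₂ hT le_rfl hgG')
        (fin4_gro gr₃ (by positivity) le_rfl hgG')
        ⟨lo₁', up₁'⟩ ⟨lo₂', up₂'⟩ hθw hl₂G hlθ L L' p hpP O
        (fun j hj => by rw [← hmap, hlow j hj, Polynomial.map_zero]) (natDegree_frm _ _ _ _ _ _ _ _ _)
        S hSpos hθ1 j (by omega)
      rw [← hc_def] at h1
      have h2 := num_small (S := S) (G := G) hM hT hMT hm2 ha2 ht htT' hNO hν hV hνV hc ha270 hG
        hS1 hQ2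
      have h3 : (L : ℝ) ^ 2 * L' * P = Q := by
        rw [hQ_def, hL_def, hL'_def]
        push_cast
        ring
      have e1 : taylor (w₂ / w₁) q = Polynomial.C (algebraMap K ℂ D) *
          taylor (w₂ / w₁) (frm (PowerSeries.map (algebraMap K ℂ) U₁)
            (PowerSeries.map (algebraMap K ℂ) U₂) (PowerSeries.map (algebraMap K ℂ) U₃)
            l₁ l₂ L L' p O) := by
        rw [hq_def, Polynomial.map_mul, Polynomial.map_C, taylor_mul, taylor_C, ← hmap]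
      have e2 : ‖algebraMap K ℂ D‖ = O.factorial * (ν : ℝ) ^ (2 * O) := by
        rw [hD_def, map_mul, map_pow, map_natCast, map_natCast, norm_mul, norm_pow,
          Complex.norm_natCast, Complex.norm_natCast]
      rw [e1, Polynomial.coeff_C_mul, norm_mul, e2]
      refine le_trans (mul_le_mul_of_nonneg_left h1 (by positivity)) ?_
      refine le_trans (le_of_eq ?_) h2
      rw [h3, hL_def, hL'_def]
      push_cast
      ring
    have hfin2 := hclose K M T X Y w₁ τ₁ w₂ τ₂ γ q O hM hfin hT hMT c₁ c₂ hγ hγB hrat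
      (by
        have h1 : M * T ≤ X * T := by rw [hXT]; linarith
        exact le_of_mul_le_mul_right h1 hT)
      (by
        rw [norm_div, hXT]
        have hpos : 0 < ‖w₁‖ := norm_pos_iff.2 hw₁
        rw [div_le_iff₀ hpos]
        calc ‖w₂‖ ≤ Real.exp G := up₂'
          _ = Real.exp (2 * G) * Real.exp (-G) := by rw [← Real.exp_add]; congr 1; ring
          _ ≤ Real.exp (8 * Real.log O + 44 * c * (M ^ 2 * T)) * ‖w₁‖ := by
              apply mul_le_mul _ lo₁' (Real.exp_pos _).le (Real.exp_pos _).le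
              apply Real.exp_le_exp.2
              rw [hG_def]
              linarith)
      (by omega) (by rw [hXT]; linarith) hq0 hqdeg hmem hint hhouse hsmall
    have hX0 : 0 ≤ X := by rw [hX_def]; positivity
    have hXle : X ≤ κ * ((Real.log O + M ^ 2 * T) / T) := by
      rw [hX_def, ← mul_div_assoc]
      apply div_le_div_of_nonneg_right _ hT.le
      have h1 : 4050 * (Real.log O) ≤ κ * Real.log O := by
        rw [hκ_def]
        exact mul_le_mul_of_nonneg_right (by linarith) hlogO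
      have h2 : κ * (M ^ 2 * T) = 4050 * (c * (M ^ 2 * T)) := by rw [hκ_def]; ring
      rw [mul_add, h2]
      linarith
    have hZ2 : T * X ^ C₂ ≤ T * (κ * ((Real.log O + M ^ 2 * T) / T)) ^ C₂ :=
      mul_le_mul_of_nonneg_left (pow_le_pow_left₀ hX0 hXle C₂) hT.le
    exact fin_c hc hκ_def hlogO r4 hZ (by rw [hV_def]; linarith) hG_def hY_def
      (hfin2.trans hZ2) hSbig

end Pool.Agent.LGO.E4
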