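import Mathlib
import Pool.Agent.LGO.E3.Defs
import Pool.Agent.Schn.TayBasic

/-!
# LGO, engine 4: definitions

Plan of engine 4 = measure version of engine 3.  `η = l₁ w₁ + l₂ w₂ - w₃`, `θ = 1 + η / w₃`, so
`l₁ w₁ + l₂ w₂ = θ w₃` exactly.  The functions `z ↦ s₃(θ z)`, `e₃(θ z)` have the series `U₃(θ w₃ z)`, so
the function `Fn` of engine 3 for `w₃' = θ w₃`, `s₃' = s₃(θ ·)`, `e₃' = e₃(θ ·)` has the forms `frm` as
leading forms (`Ser`), it is only APPROXIMATELY periodic (`Shift`); approximate Schwarz lemma in two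
variables (`Two`), `Small`; the order is bounded by a zero estimate (`Coef`, `Rev`, `Zest`) or the
indices are small.  The arithmetic (`AuxP`, `Hur`, `Maj`, `FrmMap`, `close_main`) is the one of engine 3.

* `Loc.toN`: trivial.
* `Loc.scale`: `tay (fun z => f (θ z)) = rescale θ (tay f)` (`ser_scale` in `E3/Ser.lean` is the proof,
  private there: `iteratedDeriv_comp_const_mul`), `rescale θ (tay e * rescale w U) =
  rescale θ (tay e) * rescale (w θ) U` (`PowerSeries.rescale_rescale`).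
* `Gro.scale`: `‖θ z‖ ≤ 2 R`, `c ((2 R)² / t + 2 R) ≤ 4 c (R² / t + R)`.
-/

namespace Pool.Agent.LGO.E4

open Polynomial Pool.Agent.Schn Pool.Agent.LGO.E3

noncomputable section

/-- local data without periodicity -/
structure LocN (w : ℂ) (U : PowerSeries ℂ) (s e : ℂ → ℂ) : Prop where
  ds : Differentiable ℂ s
  de : Differentiable ℂ e
  e0 : e 0 = 1
  ser : tay s = tay e * PowerSeries.rescale w U

theorem Loc.toN {w : ℂ} {U : PowerSeries ℂ} {s e : ℂ → ℂ} (h : Loc w U s e) : LocN w U s e :=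
  ⟨h.ds, h.de, h.e0, h.ser⟩

private theorem Defs_scale {f : ℂ → ℂ} (hf : Differentiable ℂ f) (α : ℂ) :
    tay (fun t => f (α * t)) = PowerSeries.rescale α (tay f) := by
  ext n
  rw [PowerSeries.coeff_rescale, tay, tay, PowerSeries.coeff_mk, PowerSeries.coeff_mk,
    iteratedDeriv_comp_const_mul hf.contDiff α]
  simp only [mul_zero]
  ring

theorem Loc.scale {w : ℂ} {U : PowerSeries ℂ} {s e : ℂ → ℂ} (h : Loc w U s e) (θ : ℂ) :
    LocN (θ * w) U (fun z => s (θ * z)) (fun z => e (θ * z)) := by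
  refine ⟨h.ds.comp (differentiable_id.const_mul θ), h.de.comp (differentiable_id.const_mul θ), ?_, ?_⟩
  · show e (θ * 0) = 1
    rw [mul_zero, h.e0]
  · rw [Defs_scale h.ds, Defs_scale h.de, h.ser, map_mul, PowerSeries.rescale_rescale, mul_comm w θ]

private theorem Defs_mono {c G t R : ℝ} (hc : 0 ≤ c) (ht : 0 < t) (hR : 1 ≤ R) :
    Real.exp (c * (R ^ 2 / t + R) + G) ≤ Real.exp (4 * c * (R ^ 2 / t + R) + G) := by
  refine Real.exp_le_exp.mpr ?_
  have h1 : 0 ≤ R ^ 2 / t + R := by positivity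
  have h2 : 0 ≤ c * (R ^ 2 / t + R) := mul_nonneg hc h1
  linarith

theorem Gro.scale {c G t : ℝ} {s e : ℂ → ℂ} (h : Gro c G t s e) (hc : 0 ≤ c) (ht : 0 < t) {θ : ℂ}
    (hθ : ‖θ‖ ≤ 2) : Gro (4 * c) G t (fun z => s (θ * z)) (fun z => e (θ * z)) := by
  intro R z hR hz
  have h1 : ‖θ * z‖ ≤ 2 * R := by
    rw [norm_mul]
    exact mul_le_mul hθ hz (norm_nonneg _) (by norm_num)
  have h2 : Real.exp (c * ((2 * R) ^ 2 / t + 2 * R) + G) ≤
      Real.exp (4 * c * (R ^ 2 / t + R) + G) := by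
    refine Real.exp_le_exp.mpr ?_
    have h3 : 0 ≤ c * R := mul_nonneg hc (by linarith)
    have h4 : c * ((2 * R) ^ 2 / t + 2 * R) = 4 * c * (R ^ 2 / t + R) - 2 * (c * R) := by ring
    rw [h4]
    linarith
  obtain ⟨h5, h6⟩ := h (2 * R) (θ * z) (by linarith) h1
  exact ⟨h5.trans h2, h6.trans h2⟩

/-- a larger constant -/
theorem Gro.mono4 {c G t : ℝ} {s e : ℂ → ℂ} (h : Gro c G t s e) (hc : 0 ≤ c) (ht : 0 < t) :
    Gro (4 * c) G t s e := by
  intro R z hR hz
  obtain ⟨h5, h6⟩ := h R z hR hz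
  exact ⟨h5.trans (Defs_mono hc ht hR), h6.trans (Defs_mono hc ht hR)⟩

end

end Pool.Agent.LGO.E4
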