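import Pool.Agent.LGO.E4.Coef
import Pool.Agent.LGO.A.MulStr
import Pool.Agent.LGO.A.BsAn

/-!
# LGO, engine 4, module Zest: zero estimate

`zest1`.  Let `b₀` be the smallest `b` such that `p a b c ≠ 0` for some `a < L`, `c < L'`.  By
`frm_coeff` (`coeff 2 (us A B) = 1` from `us_rec` with `m = 0`) the coefficients of index `k`,
`k + 2 b₀ ≤ 402 L²`, in particular all `k ≤ 400 L²` (`b₀ < L ≤ L²`), of
`W = ∑ p a b₀ c U₁^a (rescale l₁ U₃)^c` vanish.  `W` is the Taylor series at `0` of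
`∑ p a b₀ c u₁(z)^a u₃(l₁ z)^c` (`iu_tay`, `iu_tay_comp`, rules for `tay`; put the coefficient `0` for
`L' ≤ c < L`), so the order of this function at `0` is `> 400 L²` (all iterated derivatives of order
`≤ 400 L²` vanish: `natCast_le_analyticOrderAt_iff_iteratedDeriv_eq_zero`), and `mult_str` (with
`x₁ = 1`, `x₂ = l₁`) gives `0 < n < L` with `Mp (n l₁)`.
`zest`.  `zest1` for `l₁` and, with the indices 1, 2 exchanged, for `l₂` (`rev_frm`: all coefficients of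
`frm` vanish, so all coefficients of the reversed form of index `≤ k` vanish, the ones of index `> k` vanish by
`natDegree_frm`); `n = n₁ n₂`, with `n_i = 1` if `l_i = 0` (`Mp 0` is trivial).
-/

namespace Pool.Agent.LGO.E4

open Polynomial Pool.Agent.LGO.E3 Pool.Agent.LGO.Bs Pool.Agent.EllSch Pool.Agent.Schn

private lemma Zest_us_two (A B : ℂ) : PowerSeries.coeff 2 (us A B) = 1 := by
  have h := us_rec A B 0
  have e0 : PowerSeries.constantCoeff (us A B) = 0 := by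
    rw [← PowerSeries.coeff_zero_eq_constantCoeff_apply, us_zero]
  have e2 : PowerSeries.coeff 0 (us A B ^ 2) = 0 := by
    rw [PowerSeries.coeff_zero_eq_constantCoeff_apply, map_pow, e0]
    norm_num
  have e3 : PowerSeries.coeff 0 (us A B ^ 3) = 0 := by
    rw [PowerSeries.coeff_zero_eq_constantCoeff_apply, map_pow, e0]
    norm_num
  rw [e2, e3] at h
  norm_num at h
  linear_combination h

private lemma Zest_order {f : ℂ → ℂ} (hf : AnalyticAt ℂ f 0) {n : ℕ}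
    (h : ∀ k < n, PowerSeries.coeff k (tay f) = 0) : (n : ℕ∞) ≤ analyticOrderAt f 0 := by
  rw [natCast_le_analyticOrderAt_iff_iteratedDeriv_eq_zero hf]
  intro k hk
  have h1 := h k hk
  rw [tay, PowerSeries.coeff_mk, div_eq_zero_iff] at h1
  exact h1.resolve_right (Nat.cast_ne_zero.mpr (Nat.factorial_ne_zero k))

private lemma Zest_tay {a b a' b' l : ℂ} (h : Ind a b) (h' : Ind a' b') {L L' : ℕ} (hLL : L' ≤ L)
    (q : ℕ → ℕ → ℂ) (r : ℕ → ℕ → ℤ) (hq : ∀ i j, q i j = if j < L' then (r i j : ℂ) else 0) :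
    AnalyticAt ℂ (fun t => ∑ i ∈ Finset.range L, ∑ j ∈ Finset.range L,
      q i j * Mul.iu a b (1 * t) ^ i * Mul.iu a' b' (l * t) ^ j) 0 ∧
    tay (fun t => ∑ i ∈ Finset.range L, ∑ j ∈ Finset.range L,
      q i j * Mul.iu a b (1 * t) ^ i * Mul.iu a' b' (l * t) ^ j) =
      ∑ i ∈ Finset.range L, ∑ j ∈ Finset.range L', PowerSeries.C (r i j : ℂ) *
        Bs.us (3 / 2 * G2 a b) (2 * G3 a b) ^ i *
        PowerSeries.rescale l (Bs.us (3 / 2 * G2 a' b') (2 * G3 a' b')) ^ j := by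
  have an1 : ∀ i, AnalyticAt ℂ (fun t => Mul.iu a b (1 * t) ^ i) 0 :=
    fun i => (iu_comp_an h 1).pow i
  have an3 : ∀ j, AnalyticAt ℂ (fun t => Mul.iu a' b' (l * t) ^ j) 0 :=
    fun j => (iu_comp_an h' l).pow j
  have hc : ∀ c : ℂ, AnalyticAt ℂ (fun _ : ℂ => c) 0 := fun c => analyticAt_const
  have anc : ∀ i j, AnalyticAt ℂ (fun t => q i j * Mul.iu a b (1 * t) ^ i) 0 :=
    fun i j => (hc _).mul (an1 i)
  have ant : ∀ i j, AnalyticAt ℂ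
      (fun t => q i j * Mul.iu a b (1 * t) ^ i * Mul.iu a' b' (l * t) ^ j) 0 :=
    fun i j => (anc i j).mul (an3 j)
  have ans : ∀ i, AnalyticAt ℂ (fun t => ∑ j ∈ Finset.range L,
      q i j * Mul.iu a b (1 * t) ^ i * Mul.iu a' b' (l * t) ^ j) 0 :=
    fun i => Finset.analyticAt_fun_sum _ fun j _ => ant i j
  refine ⟨Finset.analyticAt_fun_sum _ fun i _ => ans i, ?_⟩
  rw [tay_sum _ _ fun i _ => ans i]
  refine Finset.sum_congr rfl fun i _ => ?_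
  have key : ∀ j, tay (fun t => q i j * Mul.iu a b (1 * t) ^ i * Mul.iu a' b' (l * t) ^ j) =
      PowerSeries.C (q i j) * Bs.us (3 / 2 * G2 a b) (2 * G3 a b) ^ i *
        PowerSeries.rescale l (Bs.us (3 / 2 * G2 a' b') (2 * G3 a' b')) ^ j := by
    intro j
    rw [tay_mul (anc i j) (an3 j), tay_mul (hc _) (an1 i), tay_const, tay_pow (iu_comp_an h 1),
      tay_pow (iu_comp_an h' l), iu_tay_comp h, iu_tay_comp h', PowerSeries.rescale_one]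
    rfl
  rw [tay_sum _ _ fun j _ => ant i j, Finset.sum_congr rfl fun j _ => key j]
  refine (Finset.sum_subset (Finset.range_mono hLL) ?_).symm.trans ?_
  · intro j _ hj
    rw [hq, if_neg (fun hj' => hj (Finset.mem_range.mpr hj')), map_zero, zero_mul, zero_mul]
  · refine Finset.sum_congr rfl fun j hj => ?_
    rw [hq, if_pos (Finset.mem_range.mp hj)]

theorem zest1 {w₁ τ₁ w₃ τ₃ l₁ l₂ : ℂ} (hw₁ : w₁ ≠ 0) (hτ₁ : 0 < τ₁.im) (hw₃ : w₃ ≠ 0)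
    (hτ₃ : 0 < τ₃.im) {U₂ : PowerSeries ℂ} (h0 : PowerSeries.coeff 0 U₂ = 0)
    (h1 : PowerSeries.coeff 1 U₂ = 0) (h2 : PowerSeries.coeff 2 U₂ = 1) (hl : l₁ ≠ 0)
    {L L' : ℕ} (hLL : L' ≤ L) (p : ℕ → ℕ → ℕ → ℤ)
    (hp : ∃ a < L, ∃ b < L, ∃ c < L', p a b c ≠ 0)
    (h : ∀ k ≤ 402 * L ^ 2, frm (us (3 / 2 * G2 w₁ (w₁ * τ₁)) (2 * G3 w₁ (w₁ * τ₁))) U₂
      (us (3 / 2 * G2 w₃ (w₃ * τ₃)) (2 * G3 w₃ (w₃ * τ₃))) l₁ l₂ L L' p k = 0) :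
    ∃ n : ℕ, 0 < n ∧ n < L ∧ Mp (n * l₁) (Lt w₁ τ₁) (Lt w₃ τ₃) := by
  classical
  have hex : ∃ b, b < L ∧ ∃ a < L, ∃ c < L', p a b c ≠ 0 := by
    obtain ⟨a, ha, b, hb, c, hc, h⟩ := hp
    exact ⟨b, hb, a, ha, c, hc, h⟩
  obtain ⟨b₀, ⟨hb, a₀, ha₀, c₀, hc₀, hne⟩, hmin⟩ : ∃ b₀,
      (b₀ < L ∧ ∃ a < L, ∃ c < L', p a b₀ c ≠ 0) ∧
        ∀ a < L, ∀ b < b₀, ∀ c < L', p a b c = 0 := by
    refine ⟨Nat.find hex, Nat.find_spec hex, fun a ha b hb c hc => ?_⟩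
    by_contra hne
    exact Nat.find_min hex hb ⟨hb.trans (Nat.find_spec hex).1, a, ha, c, hc, hne⟩
  have hI₁ : Ind w₁ (w₁ * τ₁) := Mul.ind_of_im hw₁ hτ₁
  have hI₃ : Ind w₃ (w₃ * τ₃) := Mul.ind_of_im hw₃ hτ₃
  by_contra hcon
  have hm := Mul.mult_str hw₁ hτ₁ hw₃ hτ₃ (one_ne_zero : (1 : ℂ) ≠ 0) hl
    (fun i j => if j < L' then (p i b₀ j : ℂ) else 0) L
    ⟨a₀, ha₀, c₀, hc₀.trans_le hLL, by
      rw [if_pos hc₀]
      exact_mod_cast hne⟩ (by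
      rintro ⟨n, hn, hnL, hM⟩
      rw [div_one] at hM
      exact hcon ⟨n, hn, hnL, hM⟩)
  obtain ⟨hF, ht⟩ := Zest_tay (l := l₁) hI₁ hI₃ hLL
    (fun i j => if j < L' then (p i b₀ j : ℂ) else 0) (fun i j => p i b₀ j) (fun _ _ => rfl)
  have hL : b₀ ≤ L ^ 2 := by nlinarith
  have ho := Zest_order (n := 400 * L ^ 2 + 1) hF (by
    intro k hk
    rw [ht, ← frm_coeff l₁ l₂ h0 h1 h2 L L' p hb hmin k, h (k + 2 * b₀) (by omega),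
      Polynomial.coeff_zero])
  have := Nat.cast_le.mp (ho.trans hm)
  omega

private lemma Zest_Mp_zero {l : ℂ} (hl : l = 0) (n : ℕ) (Λ Λ' : AddSubgroup ℂ) :
    Mp (n * l) Λ Λ' := by
  intro x _
  rw [hl, mul_zero, zero_mul]
  exact Λ'.zero_mem

private lemma Zest_Mp_mul {l : ℂ} {n : ℕ} {Λ Λ' : AddSubgroup ℂ} (h : Mp (n * l) Λ Λ') {N m : ℕ}
    (hN : N = m * n) : Mp (N * l) Λ Λ' := by
  intro x hx
  have e : (N : ℂ) * l * x = m • (n * l * x) := by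
    rw [hN, nsmul_eq_mul]
    push_cast
    ring
  rw [e]
  exact AddSubgroup.nsmul_mem _ (h x hx) _

theorem zest {w₁ τ₁ w₂ τ₂ w₃ τ₃ l₁ l₂ : ℂ} (hw₁ : w₁ ≠ 0) (hτ₁ : 0 < τ₁.im) (hw₂ : w₂ ≠ 0)
    (hτ₂ : 0 < τ₂.im) (hw₃ : w₃ ≠ 0) (hτ₃ : 0 < τ₃.im)
    {L L' : ℕ} (hLL : L' ≤ L) (p : ℕ → ℕ → ℕ → ℤ)
    (hp : ∃ a < L, ∃ b < L, ∃ c < L', p a b c ≠ 0)
    (h : ∀ k ≤ 402 * L ^ 2, frm (us (3 / 2 * G2 w₁ (w₁ * τ₁)) (2 * G3 w₁ (w₁ * τ₁)))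
      (us (3 / 2 * G2 w₂ (w₂ * τ₂)) (2 * G3 w₂ (w₂ * τ₂)))
      (us (3 / 2 * G2 w₃ (w₃ * τ₃)) (2 * G3 w₃ (w₃ * τ₃))) l₁ l₂ L L' p k = 0) :
    ∃ n : ℕ, 0 < n ∧ n ≤ L ^ 2 ∧ Mp (n * l₁) (Lt w₁ τ₁) (Lt w₃ τ₃) ∧
      Mp (n * l₂) (Lt w₂ τ₂) (Lt w₃ τ₃) := by
  have hL : 1 ≤ L := by
    obtain ⟨a, ha, -⟩ := hp
    omega
  have h1 : ∃ n : ℕ, 0 < n ∧ n ≤ L ∧ Mp (n * l₁) (Lt w₁ τ₁) (Lt w₃ τ₃) := by
    by_cases hl : l₁ = 0
    · exact ⟨1, one_pos, hL, Zest_Mp_zero hl 1 _ _⟩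
    · obtain ⟨n, hn, hnL, hM⟩ := zest1 hw₁ hτ₁ hw₃ hτ₃ (us_zero _ _) (us_one _ _)
        (Zest_us_two _ _) hl hLL p hp h
      exact ⟨n, hn, hnL.le, hM⟩
  have h2 : ∃ n : ℕ, 0 < n ∧ n ≤ L ∧ Mp (n * l₂) (Lt w₂ τ₂) (Lt w₃ τ₃) := by
    by_cases hl : l₂ = 0
    · exact ⟨1, one_pos, hL, Zest_Mp_zero hl 1 _ _⟩
    · have hp' : ∃ a < L, ∃ b < L, ∃ c < L', (fun b a c => p a b c) a b c ≠ 0 := by
        obtain ⟨a, ha, b, hb, c, hc, hne⟩ := hp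
        exact ⟨b, hb, a, ha, c, hc, hne⟩
      obtain ⟨n, hn, hnL, hM⟩ := zest1 (l₂ := l₁) hw₂ hτ₂ hw₃ hτ₃
        (us_zero (3 / 2 * G2 w₁ (w₁ * τ₁)) (2 * G3 w₁ (w₁ * τ₁)))
        (us_one (3 / 2 * G2 w₁ (w₁ * τ₁)) (2 * G3 w₁ (w₁ * τ₁)))
        (Zest_us_two (3 / 2 * G2 w₁ (w₁ * τ₁)) (2 * G3 w₁ (w₁ * τ₁))) hl hLL
        (fun b a c => p a b c) hp' (by
          intro k hk
          ext i
          rw [Polynomial.coeff_zero]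
          rcases le_or_gt i k with hi | hi
          · rw [rev_frm _ _ _ _ _ _ _ _ hi, h k hk, Polynomial.coeff_zero]
          · exact Polynomial.coeff_eq_zero_of_natDegree_lt
              ((natDegree_frm _ _ _ _ _ _ _ _ _).trans_lt hi))
      exact ⟨n, hn, hnL.le, hM⟩
  obtain ⟨n₁, hn₁, hL₁, hM₁⟩ := h1
  obtain ⟨n₂, hn₂, hL₂, hM₂⟩ := h2
  refine ⟨n₁ * n₂, Nat.mul_pos hn₁ hn₂, ?_, Zest_Mp_mul hM₁ (m := n₂) (by ring),
    Zest_Mp_mul hM₂ (m := n₁) rfl⟩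
  rw [sq]
  exact Nat.mul_le_mul hL₁ hL₂

end Pool.Agent.LGO.E4
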