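import Pool.Agent.LGO.E4.Core
import Pool.Agent.LGO.E4.Zest

/-!
# LGO, engine 4: assembly

`core4`: `core_abs` with `Z = 402` and the third curve from `base4` (`CB` = the constant of `base4`,
with `t = 1 / M`), `zest` (with `L' = L`) gives `n ≤ L² ≤ M^C`.
`engine4'`: apply `core4` with `M' = M²`, `T = 1 / M` (`M' T = M`): `Cur K M M (1/M) w τ` implies
`Cur K M' (M' T) T w τ` and `Cur K M' (M' T) (1/M') w τ`.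
-/

namespace Pool.Agent.LGO.E4

open Polynomial Pool.Agent.EllSch Pool.Agent.LGO.E3 Pool.Agent.LGO.Bs

theorem core4 : ∃ C : ℕ, ∀ (K : IntermediateField ℚ ℂ) [FiniteDimensional ℚ K] (M T : ℝ)
    (w₁ τ₁ w₂ τ₂ w₃ τ₃ γ l₁ l₂ : ℂ), 2 ≤ M → (Module.finrank ℚ K : ℝ) ≤ M → 0 < T → T ≤ 1 →
    1 ≤ M * T →
    Cur K M (M * T) T w₁ τ₁ → Cur K M (M * T) T w₂ τ₂ → Cur K M (M * T) (1 / M) w₃ τ₃ →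
    Gen γ (Lt w₁ τ₁) (Lt w₂ τ₂) → Bd K (M * T) γ → (∀ r : ℚ, w₂ ≠ r * γ * w₁) →
    Bd K (M * T) l₁ → Bd K (M * T) l₂ →
    Real.exp (-(M ^ C)) ≤ ‖l₁ * w₁ + l₂ * w₂ - w₃‖ ∨
    ∃ n : ℕ, 0 < n ∧ (n : ℝ) ≤ M ^ C ∧ Mp (n * l₁) (Lt w₁ τ₁) (Lt w₃ τ₃) ∧
      Mp (n * l₂) (Lt w₂ τ₂) (Lt w₃ τ₃) := by
  obtain ⟨CB, hCB, hbase⟩ := base4
  obtain ⟨C, hC⟩ := core_abs CB 402
  refine ⟨C, ?_⟩
  intro K _ M T w₁ τ₁ w₂ τ₂ w₃ τ₃ γ l₁ l₂ hM hfin hT hT1 hMT c₁ c₂ c₃ hγ hγB hrat hl₁ hl₂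
  have hM0 : 0 < M := by linarith
  have hM1 : 1 ≤ M * (1 / M) := by
    rw [mul_one_div_cancel hM0.ne']
  obtain ⟨s₃, e₃, U₃, ν₃, hν₃, hν₃V, a₃, loc₃, gr₃, we₃, lo₃, up₃, us₃⟩ :=
    hbase K M T (1 / M) w₃ τ₃ hM hfin hT hMT (by positivity) hM1 c₃
  rcases hC K M T w₁ τ₁ w₂ τ₂ w₃ γ l₁ l₂ s₃ e₃ U₃ ν₃ hM hfin hT hT1 hMT c₁ c₂ hγ hγB hrat hl₁ hl₂
    hν₃ hν₃V a₃ loc₃ gr₃ lo₃ up₃ with h | ⟨L, p, hL, hp, h⟩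
  · exact Or.inl h
  · right
    rw [us₃] at h
    obtain ⟨n, hn0, hnL, hm1, hm2⟩ := zest c₁.w0 c₁.im_pos c₂.w0 c₂.im_pos c₃.w0 c₃.im_pos le_rfl p
      hp h
    refine ⟨n, hn0, ?_, hm1, hm2⟩
    have h1 : (n : ℝ) ≤ (L : ℝ) ^ 2 := by exact_mod_cast hnL
    exact h1.trans hL

/-- change of the parameters -/
theorem fin4_cur {K : IntermediateField ℚ ℂ} {M B t M' B' t' : ℝ} {w τ : ℂ} (h : Cur K M B t w τ)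
    (hM : M ≤ M') (hB : B' = B) (ht : t' ≤ t) : Cur K M' B' t' w τ := by
  subst hB
  exact ⟨h.w0, h.im_pos, ht.trans h.im,
    fun v hv h0 => (h.sh v hv h0).trans (mul_le_mul_of_nonneg_right hM (norm_nonneg _)), h.g2, h.g3⟩


theorem engine4' : ∃ C : ℕ, ∀ (K : IntermediateField ℚ ℂ) [FiniteDimensional ℚ K] (M : ℝ)
    (w₁ τ₁ w₂ τ₂ w₃ τ₃ γ l₁ l₂ : ℂ), 2 ≤ M → (Module.finrank ℚ K : ℝ) ≤ M →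
    Cur K M M (1 / M) w₁ τ₁ → Cur K M M (1 / M) w₂ τ₂ → Cur K M M (1 / M) w₃ τ₃ →
    Gen γ (Lt w₁ τ₁) (Lt w₂ τ₂) → Bd K M γ → (∀ r : ℚ, w₂ ≠ r * γ * w₁) →
    Bd K M l₁ → Bd K M l₂ →
    Real.exp (-(M ^ C)) ≤ ‖l₁ * w₁ + l₂ * w₂ - w₃‖ ∨
    ∃ n : ℕ, 0 < n ∧ (n : ℝ) ≤ M ^ C ∧ Mp (n * l₁) (Lt w₁ τ₁) (Lt w₃ τ₃) ∧
      Mp (n * l₂) (Lt w₂ τ₂) (Lt w₃ τ₃) := by
  obtain ⟨C, hC⟩ := core4
  refine ⟨2 * C, ?_⟩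
  intro K _ M w₁ τ₁ w₂ τ₂ w₃ τ₃ γ l₁ l₂ hM hfin c₁ c₂ c₃ hγ hγB hrat hl₁ hl₂
  have hM0 : 0 < M := by linarith
  have hMM : M ≤ M ^ 2 := by nlinarith
  have e : M ^ 2 * (1 / M) = M := by field_simp
  have e2 : 1 / M ^ 2 ≤ 1 / M := one_div_le_one_div_of_le hM0 hMM
  have h := hC K (M ^ 2) (1 / M) w₁ τ₁ w₂ τ₂ w₃ τ₃ γ l₁ l₂ (hM.trans hMM) (hfin.trans hMM)
    (by positivity) (by rw [div_le_one hM0]; linarith) (by rw [e]; linarith)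
    (fin4_cur c₁ hMM e le_rfl) (fin4_cur c₂ hMM e le_rfl) (fin4_cur c₃ hMM e e2) hγ
    (by rw [e]; exact hγB) hrat (by rw [e]; exact hl₁) (by rw [e]; exact hl₂)
  rw [← pow_mul] at h
  exact h

end Pool.Agent.LGO.E4
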