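import Pool.Agent.LGO.E4.Defs
import Pool.Agent.LGO.E3.Bnd

/-!
# LGO, engine 4, module Shift: approximate periodicity

Proof.  Fix `z, v` and put
`H(x) = ∑ p a b c (s₁ z ^ a e₁ z ^ (L-1-a)) (s₂(z+v) ^ b e₂(z+v) ^ (L-1-b))
  (s₃(θ (z + κ v) + x) ^ c e₃(θ (z + κ v) + x) ^ (L'-1-c))`.
`H` is entire, `H(0) = Fn(z, v)` (for the functions `s₃(θ ·)`, `e₃(θ ·)`), and `H(s (θ - 1)) =
Fn(s + z, v)` by periodicity under integers (`Function.Periodic.int_mul`, or induction):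
`θ (s + z + κ v) = s + (θ (z + κ v) + s (θ - 1))`.  For `‖x‖ ≤ 1` the arguments of the functions are
`‖z‖ ≤ 9 S`, `‖z + v‖ ≤ 9 S`, `‖θ (z + κ v) + x‖ ≤ 2 (1/2 + 1) + 1 ≤ 9 S`, so as in `E3/Bnd.lean`
`‖H(x)‖ ≤ B`.  By Cauchy `‖H'‖ ≤ 2 B` on `‖x‖ ≤ 1/2` and by the mean value inequality
`‖H(x) - H(0)‖ ≤ 2 B ‖x‖` for `‖x‖ ≤ 1/2`; `x = s (θ - 1)`, `‖x‖ ≤ S ‖θ - 1‖ ≤ 1/2`.
-/

namespace Pool.Agent.LGO.E4

open Pool.Agent.Schn Pool.Agent.LGO.E3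

private lemma shift_pw {x y : ℂ} {X : ℝ} (hX : 0 ≤ X) (hx : ‖x‖ ≤ Real.exp X)
    (hy : ‖y‖ ≤ Real.exp X) {a L : ℕ} (ha : a < L) :
    ‖x ^ a * y ^ (L - 1 - a)‖ ≤ Real.exp (L * X) := by
  rw [norm_mul, norm_pow, norm_pow]
  calc ‖x‖ ^ a * ‖y‖ ^ (L - 1 - a) ≤ Real.exp X ^ a * Real.exp X ^ (L - 1 - a) := by gcongr
    _ = Real.exp X ^ (L - 1) := by rw [← pow_add]; congr 1; omega
    _ = Real.exp (((L - 1 : ℕ) : ℝ) * X) := by rw [Real.exp_nat_mul]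
    _ ≤ Real.exp (L * X) := by
      apply Real.exp_le_exp.2
      apply mul_le_mul_of_nonneg_right _ hX
      exact_mod_cast Nat.sub_le L 1

private lemma shift_gro {s e : ℂ → ℂ} {c G t : ℝ} (h : Gro c G t s e) {S : ℕ} (hS : 1 ≤ S) {z : ℂ}
    (hz : ‖z‖ ≤ 9 * S) : ‖s z‖ ≤ Real.exp (c * (81 * S ^ 2 / t + 9 * S) + G) ∧
      ‖e z‖ ≤ Real.exp (c * (81 * S ^ 2 / t + 9 * S) + G) := by
  have hS' : (1 : ℝ) ≤ S := by exact_mod_cast hS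
  have h1 := h (9 * S) z (by linarith) hz
  have h2 : (9 * (S : ℝ)) ^ 2 = 81 * S ^ 2 := by ring
  rwa [h2] at h1

private lemma shift_int {f : ℂ → ℂ} (hf : ∀ z, f (z + 1) = f z) (s : ℤ) (y : ℂ) :
    f (s + y) = f y := by
  have h : Function.Periodic f 1 := hf
  have h2 := h.int_mul s y
  rw [mul_one] at h2
  rw [add_comm]
  exact h2

/-- the function `H` of the header -/
private noncomputable def shift_H (s₃ e₃ : ℂ → ℂ) (A B : ℕ → ℂ) (L L' : ℕ)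
    (p : ℕ → ℕ → ℕ → ℤ) (y : ℂ) : ℂ :=
  ∑ a ∈ Finset.range L, ∑ b ∈ Finset.range L, ∑ c ∈ Finset.range L',
    (p a b c : ℂ) * A a * B b * (s₃ y ^ c * e₃ y ^ (L' - 1 - c))

private lemma shift_H_diff {s₃ e₃ : ℂ → ℂ} (hs : Differentiable ℂ s₃) (he : Differentiable ℂ e₃)
    (A B : ℕ → ℂ) (L L' : ℕ) (p : ℕ → ℕ → ℕ → ℤ) :
    Differentiable ℂ (shift_H s₃ e₃ A B L L' p) := by
  unfold shift_H
  refine Differentiable.fun_sum fun a _ => ?_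
  refine Differentiable.fun_sum fun b _ => ?_
  refine Differentiable.fun_sum fun c _ => ?_
  exact (differentiable_const _).mul ((hs.pow c).mul (he.pow _))

private lemma shift_H_bd {s₃ e₃ : ℂ → ℂ} {A B : ℕ → ℂ} {L L' : ℕ} {p : ℕ → ℕ → ℕ → ℤ} {P X X' : ℝ}
    (hp : ∀ i j k, |(p i j k : ℝ)| ≤ P) (hX' : 0 ≤ X')
    (hA : ∀ a < L, ‖A a‖ ≤ Real.exp (L * X)) (hB : ∀ a < L, ‖B a‖ ≤ Real.exp (L * X)) {y : ℂ}
    (h1 : ‖s₃ y‖ ≤ Real.exp X') (h2 : ‖e₃ y‖ ≤ Real.exp X') :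
    ‖shift_H s₃ e₃ A B L L' p y‖ ≤ L ^ 2 * L' * P * Real.exp (2 * L * X + L' * X') := by
  have hP : 0 ≤ P := (abs_nonneg _).trans (hp 0 0 0)
  have hterm : ∀ i ∈ Finset.range L, ∀ j ∈ Finset.range L, ∀ k ∈ Finset.range L',
      ‖(p i j k : ℂ) * A i * B j * (s₃ y ^ k * e₃ y ^ (L' - 1 - k))‖ ≤
      P * Real.exp (2 * L * X + L' * X') := by
    intro i hi j hj k hk
    rw [Finset.mem_range] at hi hj hk
    rw [norm_mul, norm_mul, norm_mul]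
    have e0 : ‖(p i j k : ℂ)‖ ≤ P := by
      rw [Complex.norm_intCast]
      exact hp i j k
    have e1 := hA i hi
    have e2 := hB j hj
    have e3 := shift_pw hX' h1 h2 hk
    calc ‖(p i j k : ℂ)‖ * ‖A i‖ * ‖B j‖ * ‖s₃ y ^ k * e₃ y ^ (L' - 1 - k)‖
        ≤ P * Real.exp (L * X) * Real.exp (L * X) * Real.exp (L' * X') := by
          gcongr
      _ = P * Real.exp (2 * L * X + L' * X') := by
          rw [mul_assoc, mul_assoc, ← Real.exp_add, ← Real.exp_add]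
          congr 2
          ring
  have hsum : ‖shift_H s₃ e₃ A B L L' p y‖ ≤ ∑ _i ∈ Finset.range L,
      ∑ _j ∈ Finset.range L, ∑ _k ∈ Finset.range L', P * Real.exp (2 * L * X + L' * X') := by
    rw [shift_H]
    refine (norm_sum_le _ _).trans (Finset.sum_le_sum fun i hi => ?_)
    refine (norm_sum_le _ _).trans (Finset.sum_le_sum fun j hj => ?_)
    refine (norm_sum_le _ _).trans (Finset.sum_le_sum fun k hk => ?_)
    exact hterm i hi j hj k hk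
  refine hsum.trans (le_of_eq ?_)
  rw [Finset.sum_const, Finset.sum_const, Finset.sum_const, Finset.card_range, Finset.card_range]
  simp only [nsmul_eq_mul]
  ring

private lemma shift_mv {H : ℂ → ℂ} (hH : Differentiable ℂ H) {B : ℝ} {y : ℂ}
    (hB : ∀ x, ‖x - y‖ ≤ 1 → ‖H x‖ ≤ B) {x : ℂ} (hx : ‖x - y‖ ≤ 1 / 2) :
    ‖H x - H y‖ ≤ 2 * B * ‖x - y‖ := by
  have hd : ∀ u ∈ Metric.closedBall y (1 / 2 : ℝ), ‖deriv H u‖ ≤ 2 * B := by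
    intro u hu
    rw [Metric.mem_closedBall, dist_eq_norm] at hu
    have h1 : ‖deriv H u‖ ≤ B / (1 / 2) := by
      refine Complex.norm_deriv_le_of_forall_mem_sphere_norm_le (by norm_num)
        hH.diffContOnCl ?_
      intro v hv
      rw [Metric.mem_sphere, dist_eq_norm] at hv
      apply hB
      calc ‖v - y‖ = ‖(v - u) + (u - y)‖ := by congr 1; ring
        _ ≤ ‖v - u‖ + ‖u - y‖ := norm_add_le _ _
        _ ≤ 1 := by linarith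
    calc ‖deriv H u‖ ≤ B / (1 / 2) := h1
      _ = 2 * B := by ring
  refine (convex_closedBall y (1 / 2 : ℝ)).norm_image_sub_le_of_norm_deriv_le
    (fun u _ => hH u) hd (Metric.mem_closedBall_self (by norm_num)) ?_
  rwa [Metric.mem_closedBall, dist_eq_norm]

theorem shift {w₁ w₂ w₃ : ℂ} {U₁ U₂ U₃ : PowerSeries ℂ} {s₁ e₁ s₂ e₂ s₃ e₃ : ℂ → ℂ}
    (h₁ : Loc w₁ U₁ s₁ e₁) (h₂ : Loc w₂ U₂ s₂ e₂) (h₃ : Loc w₃ U₃ s₃ e₃) {c G t t' P : ℝ}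
    (hc : 0 ≤ c) (hG : 0 ≤ G) (ht : 0 < t) (ht' : 0 < t') (g₁ : Gro c G t s₁ e₁)
    (g₂ : Gro c G t s₂ e₂) (g₃ : Gro c G t' s₃ e₃) {θ : ℂ} (hθ : ‖θ‖ ≤ 2) (κ : ℂ) (L L' : ℕ)
    (p : ℕ → ℕ → ℕ → ℤ) (hp : ∀ i j k, |(p i j k : ℝ)| ≤ P) (S : ℕ) (hS : 1 ≤ S)
    (hθS : S * ‖θ - 1‖ ≤ 1 / 2) (s : ℤ) (hs : |s| ≤ S) (z v : ℂ) (hz : ‖z‖ ≤ 1 / 2)
    (hv : ‖v‖ ≤ 1 / (1 + ‖κ‖)) :
    ‖Fn s₁ e₁ s₂ e₂ (fun y => s₃ (θ * y)) (fun y => e₃ (θ * y)) κ L L' p (s + z, v) -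
      Fn s₁ e₁ s₂ e₂ (fun y => s₃ (θ * y)) (fun y => e₃ (θ * y)) κ L L' p (z, v)‖ ≤
      2 * (L ^ 2 * L' * P * Real.exp (2 * L * (c * (81 * S ^ 2 / t + 9 * S) + G)
        + L' * (c * (81 * S ^ 2 / t' + 9 * S) + G))) * (S * ‖θ - 1‖) := by
  have hS' : (1 : ℝ) ≤ S := by exact_mod_cast hS
  have hP : 0 ≤ P := (abs_nonneg _).trans (hp 0 0 0)
  have hκ : 0 ≤ ‖κ‖ := norm_nonneg κ
  have hv1 : ‖v‖ ≤ 1 := hv.trans (by rw [div_le_one (by linarith)]; linarith)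
  have hκv : ‖κ * v‖ ≤ 1 := by
    rw [norm_mul]
    calc ‖κ‖ * ‖v‖ ≤ ‖κ‖ * (1 / (1 + ‖κ‖)) := mul_le_mul_of_nonneg_left hv hκ
      _ ≤ 1 := by rw [mul_one_div, div_le_one (by linarith)]; linarith
  have hz1 : ‖z‖ ≤ 9 * S := by linarith
  have hz2 : ‖z + v‖ ≤ 9 * S := (norm_add_le _ _).trans (by linarith)
  have hX : 0 ≤ c * (81 * (S : ℝ) ^ 2 / t + 9 * S) + G := by positivity
  have hX' : 0 ≤ c * (81 * (S : ℝ) ^ 2 / t' + 9 * S) + G := by positivity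
  have q1 := shift_gro g₁ hS hz1
  have q2 := shift_gro g₂ hS hz2
  set X : ℝ := c * (81 * (S : ℝ) ^ 2 / t + 9 * S) + G with hXdef
  set X' : ℝ := c * (81 * (S : ℝ) ^ 2 / t' + 9 * S) + G with hXdef'
  set y : ℂ := θ * (z + κ * v) with hy
  have hyn : ‖y‖ ≤ 3 := by
    rw [hy, norm_mul]
    have h5 : ‖z + κ * v‖ ≤ 3 / 2 := (norm_add_le _ _).trans (by linarith)
    calc ‖θ‖ * ‖z + κ * v‖ ≤ 2 * (3 / 2) := by gcongr
      _ = 3 := by norm_num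
  set A : ℕ → ℂ := fun a => s₁ z ^ a * e₁ z ^ (L - 1 - a) with hA
  set B : ℕ → ℂ := fun b => s₂ (z + v) ^ b * e₂ (z + v) ^ (L - 1 - b) with hB
  set H : ℂ → ℂ := shift_H s₃ e₃ A B L L' p with hH
  have hHb : ∀ x, ‖x - y‖ ≤ 1 → ‖H x‖ ≤ L ^ 2 * L' * P * Real.exp (2 * L * X + L' * X') := by
    intro x hx
    have hx9 : ‖x‖ ≤ 9 * S := by
      calc ‖x‖ = ‖(x - y) + y‖ := by congr 1; ring
        _ ≤ ‖x - y‖ + ‖y‖ := norm_add_le _ _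
        _ ≤ 9 * S := by linarith
    have q3 := shift_gro g₃ hS hx9
    exact shift_H_bd hp hX' (fun a ha => shift_pw hX q1.1 q1.2 ha)
      (fun b hb => shift_pw hX q2.1 q2.2 hb) q3.1 q3.2
  have hF0 : Fn s₁ e₁ s₂ e₂ (fun y => s₃ (θ * y)) (fun y => e₃ (θ * y)) κ L L' p (z, v) = H y := rfl
  have hF1 : Fn s₁ e₁ s₂ e₂ (fun y => s₃ (θ * y)) (fun y => e₃ (θ * y)) κ L L' p (s + z, v) =
      H (y + s * (θ - 1)) := by
    have a1 : θ * (s + z + κ * v) = s + (y + s * (θ - 1)) := by rw [hy]; ring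
    have a2 : (s : ℂ) + z + v = s + (z + v) := by ring
    rw [hH, shift_H, E3.Fn]
    simp only [a1, a2, shift_int h₁.ps, shift_int h₁.pe, shift_int h₂.ps, shift_int h₂.pe,
      shift_int h₃.ps, shift_int h₃.pe, hA, hB]
  have hsn : ‖(y + s * (θ - 1)) - y‖ ≤ S * ‖θ - 1‖ := by
    have a3 : (y + s * (θ - 1)) - y = s * (θ - 1) := by ring
    rw [a3, norm_mul, Complex.norm_intCast]
    have a4 : |(s : ℝ)| ≤ S := by exact_mod_cast hs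
    gcongr
  rw [hF0, hF1]
  have hB0 : 0 ≤ L ^ 2 * L' * P * Real.exp (2 * L * X + L' * X') := by positivity
  refine (shift_mv (shift_H_diff h₃.ds h₃.de A B L L' p) hHb (hsn.trans hθS)).trans ?_
  exact mul_le_mul_of_nonneg_left hsn (by positivity)

end Pool.Agent.LGO.E4
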