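import Pool.Agent.LGO.E4.Two
import Pool.Agent.LGO.E4.Ser
import Pool.Agent.LGO.E4.Shift
import Pool.Agent.LGO.E3.Unif
import Pool.Agent.LGO.E3.Small

/-!
# LGO, engine 4, module Small: the Taylor coefficients of the leading form at `w₂ / w₁` are small

Proof.  Copy of `E3/Small.lean` with `w₃` replaced by `θ w₃`, `s₃`, `e₃` by `s₃(θ ·)`, `e₃(θ ·)`
(`Loc.scale`, `Loc.toN`, `tay_FnN`, `analytic_FnN`), `schwarz2` by `schwarz2N`.  The bound `B` (for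
`‖z‖ ≤ 8 S`) is `bnd` of `E3/Bnd.lean` with the constant `4 c` (`Gro.scale`, `Gro.mono4`):
`B = L² L' P exp(2 L (4 c (81 S²/t + 9 S) + G) + L' (4 c (81 S²/t' + 9 S) + G))`; the bound of `shift`
(with the constant `c`) is `≤ 2 B (S ‖θ - 1‖) =: ε`, and `hε`: `4 S 8^(S O) 2^O 2 B S ‖θ - 1‖ ≤ B` is
`hθ1` times `B ≥ 0`.  `hθ1` also gives `S ‖θ - 1‖ ≤ 1/8`, so `‖θ‖ ≤ 2`.
-/

namespace Pool.Agent.LGO.E4

open Polynomial Pool.Agent.Schn Pool.Agent.LGO.E3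

theorem small4 {w₁ w₂ w₃ l₁ l₂ θ : ℂ} {U₁ U₂ U₃ : PowerSeries ℂ} {s₁ e₁ s₂ e₂ s₃ e₃ : ℂ → ℂ}
    (h₁ : Loc w₁ U₁ s₁ e₁) (h₂ : Loc w₂ U₂ s₂ e₂) (h₃ : Loc w₃ U₃ s₃ e₃) {c G t t' P : ℝ}
    (hc : 0 ≤ c) (hG : 0 ≤ G) (ht : 0 < t) (ht' : 0 < t') (g₁ : Gro c G t s₁ e₁)
    (g₂ : Gro c G t s₂ e₂) (g₃ : Gro c G t' s₃ e₃)
    (hw₁ : Real.exp (-G) ≤ ‖w₁‖ ∧ ‖w₁‖ ≤ Real.exp G)
    (hw₂ : Real.exp (-G) ≤ ‖w₂‖ ∧ ‖w₂‖ ≤ Real.exp G)
    (hw₃ : Real.exp (-G) ≤ ‖θ * w₃‖ ∧ ‖θ * w₃‖ ≤ Real.exp G) (hl₂ : ‖l₂‖ ≤ Real.exp G)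
    (hl : l₁ * w₁ + l₂ * w₂ = θ * w₃) (L L' : ℕ) (p : ℕ → ℕ → ℕ → ℤ)
    (hp : ∀ i j k, |(p i j k : ℝ)| ≤ P) (O : ℕ) (hlow : ∀ k < O, frm U₁ U₂ U₃ l₁ l₂ L L' p k = 0)
    (hdeg : (frm U₁ U₂ U₃ l₁ l₂ L L' p O).natDegree ≤ O) (S : ℕ) (hS : 1 ≤ S)
    (hθ1 : 8 * (S : ℝ) ^ 2 * 8 ^ (S * O) * 2 ^ O * ‖θ - 1‖ ≤ 1) (j : ℕ) (hj : 2 * j ≤ O) :
    ‖(taylor (w₂ / w₁) (frm U₁ U₂ U₃ l₁ l₂ L L' p O)).coeff j‖ ≤
      2 * (L ^ 2 * L' * P * Real.exp (2 * L * (4 * c * (81 * S ^ 2 / t + 9 * S) + G)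
        + L' * (4 * c * (81 * S ^ 2 / t' + 9 * S) + G) + (4 * G + 1) * O) / 2 ^ (S * O)) := by
  have hS1 : (1 : ℝ) ≤ S := by exact_mod_cast hS
  have hn0 : 0 ≤ ‖θ - 1‖ := norm_nonneg _
  have hpw8 : (1 : ℝ) ≤ 8 ^ (S * O) := one_le_pow₀ (by norm_num)
  have hpw2 : (1 : ℝ) ≤ 2 ^ O := one_le_pow₀ (by norm_num)
  have hpw : (1 : ℝ) ≤ 8 ^ (S * O) * 2 ^ O := one_le_mul_of_one_le_of_one_le hpw8 hpw2
  have h8S : 8 * (S * ‖θ - 1‖) ≤ 1 := by
    refine le_trans ?_ hθ1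
    have h1 : 8 * ((S : ℝ) * ‖θ - 1‖) ≤ 8 * ((S : ℝ) ^ 2 * ‖θ - 1‖) := by
      have h2 : (S : ℝ) ≤ (S : ℝ) ^ 2 := by nlinarith
      have := mul_le_mul_of_nonneg_right h2 hn0
      linarith
    have h3 : 8 * ((S : ℝ) ^ 2 * ‖θ - 1‖) * 1 ≤
        8 * ((S : ℝ) ^ 2 * ‖θ - 1‖) * (8 ^ (S * O) * 2 ^ O) :=
      mul_le_mul_of_nonneg_left hpw (by positivity)
    calc 8 * ((S : ℝ) * ‖θ - 1‖) ≤ 8 * ((S : ℝ) ^ 2 * ‖θ - 1‖) * 1 := by linarith
      _ ≤ 8 * ((S : ℝ) ^ 2 * ‖θ - 1‖) * (8 ^ (S * O) * 2 ^ O) := h3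
      _ = 8 * (S : ℝ) ^ 2 * 8 ^ (S * O) * 2 ^ O * ‖θ - 1‖ := by ring
  have hθS : (S : ℝ) * ‖θ - 1‖ ≤ 1 / 2 := by linarith
  have hθ2 : ‖θ‖ ≤ 2 := by
    have h1 : ‖θ - 1‖ ≤ (S : ℝ) * ‖θ - 1‖ := le_mul_of_one_le_left hn0 hS1
    have h2 : ‖θ‖ ≤ ‖θ - 1‖ + 1 := by
      have h3 := norm_add_le (θ - 1) 1
      rw [sub_add_cancel, norm_one] at h3
      exact h3
    linarith
  have hw1n : 0 < ‖w₁‖ := (Real.exp_pos _).trans_le hw₁.1
  have hw2n : 0 < ‖w₂‖ := (Real.exp_pos _).trans_le hw₂.1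
  have hw3n : 0 < ‖θ * w₃‖ := (Real.exp_pos _).trans_le hw₃.1
  have hw10 : w₁ ≠ 0 := norm_pos_iff.1 hw1n
  have hw20 : w₂ ≠ 0 := norm_pos_iff.1 hw2n
  have hw30 : θ * w₃ ≠ 0 := norm_pos_iff.1 hw3n
  have k₁ := Loc.toN h₁
  have k₂ := Loc.toN h₂
  have k₃ := Loc.scale h₃ θ
  have f₁ := Gro.mono4 g₁ hc ht
  have f₂ := Gro.mono4 g₂ hc ht
  have f₃ := Gro.scale g₃ hc ht' hθ2
  set f : ℂ[X] := frm U₁ U₂ U₃ l₁ l₂ L L' p O with hf
  set φ : ℂ := w₂ / w₁ with hφ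
  set κ : ℂ := l₂ * w₂ / (θ * w₃) with hκ
  set q : ℕ → ℂ := fun i => w₁ ^ O * φ ^ i * (taylor φ f).coeff i with hq
  have hF := analytic_FnN k₁ k₂ k₃ κ L L' p
  -- the coefficients along a line
  have hco : ∀ η : ℂ, (∀ k < O, PowerSeries.coeff k
      (tay fun t => Fn s₁ e₁ s₂ e₂ (fun y => s₃ (θ * y)) (fun y => e₃ (θ * y)) κ L L' p
        (t, η * t)) = 0) ∧
      PowerSeries.coeff O (tay fun t => Fn s₁ e₁ s₂ e₂ (fun y => s₃ (θ * y))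
        (fun y => e₃ (θ * y)) κ L L' p (t, η * t)) =
        ∑ i ∈ Finset.range (O + 1), q i * η ^ i := by
    intro η
    obtain ⟨V, hV, hT⟩ := tay_FnN k₁ k₂ k₃ hw10 hw30 hl L L' p η
    have hz : ∀ k < O, PowerSeries.coeff k (PowerSeries.rescale w₁
        (PowerSeries.mk fun k => (frm U₁ U₂ U₃ l₁ l₂ L L' p k).eval (w₂ * (1 + η) / w₁))) = 0 := by
      intro k hk
      rw [PowerSeries.coeff_rescale, PowerSeries.coeff_mk, hlow k hk, eval_zero, mul_zero]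
    constructor
    · intro k hk
      rw [hT, PowerSeries.coeff_mul]
      refine Finset.sum_eq_zero fun x hx => ?_
      have hx2 : x.1 + x.2 = k := Finset.HasAntidiagonal.mem_antidiagonal.1 hx
      rw [hz x.2 (by omega), mul_zero]
    · rw [hT, PowerSeries.coeff_mul, Finset.sum_eq_single ((0, O) : ℕ × ℕ)]
      · rw [PowerSeries.coeff_zero_eq_constantCoeff_apply, hV, one_mul, PowerSeries.coeff_rescale,
          PowerSeries.coeff_mk]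
        have hx : w₂ * (1 + η) / w₁ = φ * η + φ := by rw [hφ]; ring
        have he : f.eval (w₂ * (1 + η) / w₁) = (taylor φ f).eval (φ * η) := by
          rw [taylor_eval, hx]
        have hn : (taylor φ f).natDegree < O + 1 := by
          rw [natDegree_taylor]
          omega
        rw [← hf, he, eval_eq_sum_range' hn, Finset.mul_sum]
        refine Finset.sum_congr rfl fun i _ => ?_
        simp only [hq]
        rw [mul_pow]
        ring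
      · intro x hx hne
        have hx2 : x.1 + x.2 = O := Finset.HasAntidiagonal.mem_antidiagonal.1 hx
        have hlt : x.2 < O := by
          rcases Nat.lt_or_ge x.2 O with h | h
          · exact h
          · exact absurd (Prod.ext (by simp; omega) (by simp; omega)) hne
        rw [hz x.2 hlt, mul_zero]
      · intro h
        exact absurd (Finset.HasAntidiagonal.mem_antidiagonal.2 (Nat.zero_add O)) h
  have hloc := unif_taylor (Fn s₁ e₁ s₂ e₂ (fun y => s₃ (θ * y)) (fun y => e₃ (θ * y)) κ L L' p)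
    hF O q (fun η _ k hk => (hco η).1 k hk) (fun η _ => (hco η).2)
  have hκ0 : 0 ≤ ‖κ‖ := norm_nonneg κ
  have h1κ : (0 : ℝ) < 1 + ‖κ‖ := by linarith
  have hP : 0 ≤ P := (abs_nonneg _).trans (hp 0 0 0)
  have h4c : 0 ≤ 4 * c := by linarith
  set E : ℝ := 2 * L * (4 * c * (81 * S ^ 2 / t + 9 * S) + G)
        + L' * (4 * c * (81 * S ^ 2 / t' + 9 * S) + G) with hE
  set B : ℝ := L ^ 2 * L' * P * Real.exp E with hB
  have hB0 : 0 ≤ B := by positivity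
  have hBc : (L : ℝ) ^ 2 * L' * P * Real.exp (2 * L * (c * (81 * S ^ 2 / t + 9 * S) + G)
        + L' * (c * (81 * S ^ 2 / t' + 9 * S) + G)) ≤ B := by
    rw [hB]
    refine mul_le_mul_of_nonneg_left ?_ (by positivity)
    apply Real.exp_le_exp.2
    have ha : c * (81 * (S : ℝ) ^ 2 / t + 9 * S) ≤ 4 * c * (81 * S ^ 2 / t + 9 * S) := by
      have : 0 ≤ c * (81 * (S : ℝ) ^ 2 / t + 9 * S) := by positivity
      linarith
    have hb : c * (81 * (S : ℝ) ^ 2 / t' + 9 * S) ≤ 4 * c * (81 * S ^ 2 / t' + 9 * S) := by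
      have : 0 ≤ c * (81 * (S : ℝ) ^ 2 / t' + 9 * S) := by positivity
      linarith
    rw [hE]
    gcongr
  have hmain := schwarz2N (Fn s₁ e₁ s₂ e₂ (fun y => s₃ (θ * y)) (fun y => e₃ (θ * y)) κ L L' p)
    hF O S hS q hloc (1 / (1 + ‖κ‖)) B (2 * B * (S * ‖θ - 1‖)) (by positivity)
    (fun z v hz hv => bnd h4c hG ht ht' f₁ f₂ f₃ κ L L' p hp S hS z v hz hv)
    (fun s hs z v hz hv =>
      (shift h₁ h₂ h₃ hc hG ht ht' g₁ g₂ g₃ hθ2 κ L L' p hp S hS hθS s hs z v hz hv).trans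
        (mul_le_mul_of_nonneg_right (mul_le_mul_of_nonneg_left hBc (by norm_num)) (by positivity)))
    (by
      calc 4 * (S : ℝ) * 8 ^ (S * O) * 2 ^ O * (2 * B * (S * ‖θ - 1‖))
          = B * (8 * (S : ℝ) ^ 2 * 8 ^ (S * O) * 2 ^ O * ‖θ - 1‖) := by ring
        _ ≤ B * 1 := mul_le_mul_of_nonneg_left hθ1 hB0
        _ = B := mul_one B) j hj
  -- lower bound for `q j`
  have hjO : j ≤ O := by omega
  have hlow2 : Real.exp (-G * O) * ‖(taylor φ f).coeff j‖ ≤ ‖q j‖ := by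
    have h1 : ‖q j‖ = ‖w₁‖ ^ (O - j) * ‖w₂‖ ^ j * ‖(taylor φ f).coeff j‖ := by
      simp only [hq]
      rw [norm_mul, norm_mul, norm_pow, norm_pow, hφ, norm_div, div_pow]
      congr 1
      have h2 : ‖w₁‖ ^ O = ‖w₁‖ ^ (O - j) * ‖w₁‖ ^ j := by
        rw [← pow_add]
        congr 1
        omega
      rw [h2]
      field_simp
    rw [h1]
    refine mul_le_mul_of_nonneg_right ?_ (norm_nonneg _)
    calc Real.exp (-G * O) = Real.exp (-G) ^ (O - j) * Real.exp (-G) ^ j := by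
          rw [← pow_add, ← Real.exp_nat_mul]
          congr 1
          have h3 : O - j + j = O := by omega
          rw [h3]
          ring
      _ ≤ ‖w₁‖ ^ (O - j) * ‖w₂‖ ^ j := by
          gcongr
          · exact hw₁.1
          · exact hw₂.1
  -- upper bound for `κ`
  have hκb : 1 + ‖κ‖ ≤ Real.exp (3 * G + 1) := by
    have h1 : ‖κ‖ ≤ Real.exp (3 * G) := by
      rw [hκ, norm_div, norm_mul l₂ w₂, div_le_iff₀ hw3n]
      calc ‖l₂‖ * ‖w₂‖ ≤ Real.exp G * Real.exp G :=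
            mul_le_mul hl₂ hw₂.2 (norm_nonneg _) (Real.exp_pos _).le
        _ = Real.exp (3 * G) * Real.exp (-G) := by
            rw [← Real.exp_add, ← Real.exp_add]
            congr 1
            ring
        _ ≤ Real.exp (3 * G) * ‖θ * w₃‖ := mul_le_mul_of_nonneg_left hw₃.1 (Real.exp_pos _).le
    have h2 : (1 : ℝ) ≤ Real.exp (3 * G) := Real.one_le_exp (by linarith)
    have h3 : (2 : ℝ) ≤ Real.exp 1 := by
      have := Real.add_one_le_exp (1 : ℝ)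
      linarith
    rw [Real.exp_add]
    nlinarith [Real.exp_pos (3 * G)]
  have hκj : (1 + ‖κ‖) ^ j ≤ Real.exp ((3 * G + 1) * O) := by
    calc (1 + ‖κ‖) ^ j ≤ Real.exp (3 * G + 1) ^ j := pow_le_pow_left₀ h1κ.le hκb j
      _ = Real.exp (j * (3 * G + 1)) := by rw [Real.exp_nat_mul]
      _ ≤ Real.exp ((3 * G + 1) * O) := by
          apply Real.exp_le_exp.2
          have : (j : ℝ) ≤ O := by exact_mod_cast hjO
          nlinarith
  have hq2 : ‖q j‖ ≤ 2 * B * Real.exp ((3 * G + 1) * O) / 2 ^ (S * O) := by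
    refine hmain.trans ?_
    have h1 : 2 * B / (1 / (1 + ‖κ‖)) ^ j = 2 * B * (1 + ‖κ‖) ^ j := by
      rw [one_div, inv_pow, div_inv_eq_mul]
    rw [h1]
    gcongr
  have hfin : ‖(taylor φ f).coeff j‖ ≤ Real.exp (G * O) * ‖q j‖ := by
    calc ‖(taylor φ f).coeff j‖
        = Real.exp (G * O) * (Real.exp (-G * O) * ‖(taylor φ f).coeff j‖) := by
          rw [← mul_assoc, ← Real.exp_add]
          have : G * (O : ℝ) + -G * O = 0 := by ring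
          rw [this, Real.exp_zero, one_mul]
      _ ≤ Real.exp (G * O) * ‖q j‖ := mul_le_mul_of_nonneg_left hlow2 (Real.exp_pos _).le
  calc ‖(taylor φ f).coeff j‖ ≤ Real.exp (G * O) * ‖q j‖ := hfin
    _ ≤ Real.exp (G * O) * (2 * B * Real.exp ((3 * G + 1) * O) / 2 ^ (S * O)) :=
        mul_le_mul_of_nonneg_left hq2 (Real.exp_pos _).le
    _ = 2 * (L ^ 2 * L' * P * Real.exp (E + (4 * G + 1) * O) / 2 ^ (S * O)) := by
        have h1 : Real.exp (E + (4 * G + 1) * O) =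
            Real.exp E * (Real.exp (G * O) * Real.exp ((3 * G + 1) * O)) := by
          rw [← Real.exp_add, ← Real.exp_add]
          congr 1
          ring
        rw [h1, hB]
        ring

end Pool.Agent.LGO.E4
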