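import Pool.Agent.LGO.E4.Two4

/-!
# LGO, engine 4, module Two: approximate Schwarz lemma in two variables

Proof.  As `schwarz2` in `E3/Two.lean` (copy the private lemmas `two_deriv`, `two_analytic`,
`two_cauchy`, `two_poly` and the construction of `f`, `g`):
`f(z) = coeff j (tay (v ↦ F(z, v)))`, entire, `‖f z‖ ≤ B / ρ^j` for `‖z‖ ≤ 8 S`, and
`f(z) = z^(O-j) g(z)` for ALL `z`, with `g(0) = q j`, `g(z) = f(z) / z^(O-j)` otherwise, `g` continuous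
at `0`, so `g` is differentiable everywhere (removable singularity:
`Complex.differentiableOn_compl_singleton_and_continuousAt_iff` or
`Complex.analyticAt_of_differentiable_on_punctured_nhds_of_continuousAt`).  For an integer `s`,
`|s| ≤ S`, and `‖z‖ ≤ 1/2`: `h_s(z) = f(s + z) - f(z)` is the `j`-th Taylor coefficient of
`v ↦ F(s + z, v) - F(z, v)`, so `‖h_s(z)‖ ≤ ε / ρ^j` by Cauchy (`two_cauchy`); `h_0 = 0`.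
`Bs.res_int` with exponent `O' = O - j`, `r = 1/2`, `F = f`, `A = B / ρ^j` (on `‖z‖ = 3 S ≤ 8 S`),
`B = ε / ρ^j`: `‖q j‖ ≤ (B / ρ^j) / 4^(S O') + 4 S 4^(S O') (ε / ρ^j) / (1/2)^O'`.
`2 O' ≥ O`, so `4^(S O') ≥ 2^(S O)`; `4^(S O') ≤ 4^(S O)`, `2^O' ≤ 2^O`, and
`4 S 4^(S O) 2^O ε ≤ B / 2^(S O)` by `hε` (`8^(S O) = 4^(S O) 2^(S O)`).
-/

namespace Pool.Agent.LGO.E4

open Filter Topology Pool.Agent.Schn

theorem schwarz2N (F : ℂ × ℂ → ℂ) (hF : ∀ x, AnalyticAt ℂ F x) (O S : ℕ) (hS : 1 ≤ S) (q : ℕ → ℂ)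
    (hloc : ∃ C₀ r : ℝ, 0 < r ∧ ∀ z v : ℂ, ‖z‖ ≤ r → ‖v‖ ≤ ‖z‖ →
      ‖F (z, v) - ∑ i ∈ Finset.range (O + 1), q i * z ^ (O - i) * v ^ i‖ ≤ C₀ * ‖z‖ ^ (O + 1))
    (ρ B ε : ℝ) (hρ : 0 < ρ) (hB : ∀ z v : ℂ, ‖z‖ ≤ 8 * S → ‖v‖ ≤ ρ → ‖F (z, v)‖ ≤ B)
    (hsh : ∀ s : ℤ, |s| ≤ S → ∀ z v : ℂ, ‖z‖ ≤ 1 / 2 → ‖v‖ ≤ ρ →
      ‖F (s + z, v) - F (z, v)‖ ≤ ε)
    (hε : 4 * S * 8 ^ (S * O) * 2 ^ O * ε ≤ B)
    (j : ℕ) (hj : 2 * j ≤ O) : ‖q j‖ ≤ 2 * B / ρ ^ j / 2 ^ (S * O) := by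
  refine (schwarz4 F hF O S hS q hloc ρ B ε hρ hB hsh j hj).trans ?_
  have h1 : 4 * (S : ℝ) * 4 ^ (S * O) * 2 ^ O * (ε / ρ ^ j) ≤ B / ρ ^ j / 2 ^ (S * O) := by
    have h2 : (8 : ℝ) ^ (S * O) = 4 ^ (S * O) * 2 ^ (S * O) := by
      rw [← mul_pow]; norm_num
    rw [div_div, le_div_iff₀ (by positivity)]
    calc 4 * (S : ℝ) * 4 ^ (S * O) * 2 ^ O * (ε / ρ ^ j) * (ρ ^ j * 2 ^ (S * O))
        = 4 * S * 8 ^ (S * O) * 2 ^ O * ε := by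
          rw [h2]
          field_simp
      _ ≤ B := hε
  have h3 : 2 * B / ρ ^ j / 2 ^ (S * O) = B / ρ ^ j / 2 ^ (S * O) + B / ρ ^ j / 2 ^ (S * O) := by
    ring
  rw [h3]
  exact add_le_add le_rfl h1

end Pool.Agent.LGO.E4
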