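import Pool.Agent.LGO.E3.Two
import Pool.Agent.LGO.A.BsRe

/-!
# LGO, engine 4, module Two4: approximate Schwarz lemma in two variables

As `E3.schwarz2`, but `F` is only approximately `1`-periodic: `‖F(s + z, v) - F(z, v)‖ ≤ δ` for
`‖z‖ ≤ 1/2`, `‖v‖ ≤ ρ`, `|s| ≤ S`.

Proof.  `f(z) = (1/j!) ∂_v^j F(z, 0)` is entire, `‖f‖ ≤ B / ρ^j` on `‖z‖ ≤ 8 S`, and
`f(z) = z^(O-j) g(z)` with `g` entire, `g(0) = q j` (as in `E3.schwarz2`; `g` is continuous at `0` and
holomorphic elsewhere, so holomorphic).  `f(s + z) = z^(O-j) g(z) + h_s(z)`,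
`h_s(z) = f(s + z) - f(z)`, `‖h_s‖ ≤ δ / ρ^j` on `‖z‖ ≤ 1/2` (Cauchy).  `Bs.res_int` with `r = 1/2`.
-/

namespace Pool.Agent.LGO.E4

open Pool.Agent.Schn Filter Topology

private theorem two4_deriv (G : ℂ × ℂ → ℂ) (x : ℂ × ℂ) (hG : AnalyticAt ℂ G x) :
    deriv (fun v => G (x.1, v)) x.2 = fderiv ℂ G x (0, 1) := by
  have h1 : HasDerivAt (fun v : ℂ => ((x.1, v) : ℂ × ℂ)) (0, 1) x.2 :=
    (hasDerivAt_const x.2 x.1).prodMk (hasDerivAt_id x.2)
  have h2 : HasFDerivAt G (fderiv ℂ G x) (x.1, x.2) := hG.differentiableAt.hasFDerivAt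
  exact (h2.comp_hasDerivAt x.2 h1).deriv

private theorem two4_analytic (F : ℂ × ℂ → ℂ) (hF : ∀ x, AnalyticAt ℂ F x) (j : ℕ) :
    ∀ x : ℂ × ℂ,
      AnalyticAt ℂ (fun x : ℂ × ℂ => iteratedDeriv j (fun v => F (x.1, v)) x.2) x := by
  induction j with
  | zero =>
    intro x
    simpa using hF x
  | succ j ih =>
    intro x
    have h1 : (fun x : ℂ × ℂ => iteratedDeriv (j + 1) (fun v => F (x.1, v)) x.2) =
        fun x : ℂ × ℂ => fderiv ℂ
          (fun x : ℂ × ℂ => iteratedDeriv j (fun v => F (x.1, v)) x.2) x (0, 1) := by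
      funext y
      rw [iteratedDeriv_succ, ← two4_deriv _ y (ih y)]
    rw [h1]
    have h2 := (ih x).fderiv
    exact ((ContinuousLinearMap.apply ℂ ℂ ((0, 1) : ℂ × ℂ)).analyticAt _).comp h2

private theorem two4_cauchy (h : ℂ → ℂ) (hh : Differentiable ℂ h) (j : ℕ) {R C : ℝ} (hR : 0 < R)
    (hC : ∀ v, ‖v‖ = R → ‖h v‖ ≤ C) : ‖PowerSeries.coeff j (tay h)‖ ≤ C / R ^ j := by
  have h1 := Complex.norm_iteratedDeriv_le_of_forall_mem_sphere_norm_le (c := 0) j hR
    hh.diffContOnCl (fun z hz => hC z (by simpa using hz))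
  have hj : (0 : ℝ) < (j.factorial : ℝ) := by exact_mod_cast j.factorial_pos
  rw [tay, PowerSeries.coeff_mk, norm_div, Complex.norm_natCast, div_le_iff₀ hj]
  calc ‖iteratedDeriv j h 0‖ ≤ j.factorial * C / R ^ j := h1
    _ = C / R ^ j * j.factorial := by ring

private theorem two4_poly (a : ℕ → ℂ) (O j : ℕ) (hj : j ≤ O) :
    PowerSeries.coeff j (tay (fun v => ∑ i ∈ Finset.range (O + 1), a i * v ^ i)) = a j := by
  have hid : AnalyticAt ℂ (fun t : ℂ => t) 0 := analyticAt_id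
  have h1 : tay (fun v => ∑ i ∈ Finset.range (O + 1), a i * v ^ i) =
      ∑ i ∈ Finset.range (O + 1), PowerSeries.C (a i) * PowerSeries.X ^ i := by
    rw [tay_sum _ (fun i v => a i * v ^ i) fun i _ => analyticAt_const.mul (hid.pow i)]
    refine Finset.sum_congr rfl fun i _ => ?_
    have h5 : tay (fun v => a i * v ^ i) = tay (fun _ => a i) * tay (fun v => v ^ i) :=
      tay_mul (f := fun _ => a i) (g := fun v => v ^ i) analyticAt_const (hid.pow i)
    rw [h5, tay_const, tay_pow hid, tay_id]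
  rw [h1, map_sum, Finset.sum_eq_single j]
  · rw [PowerSeries.coeff_C_mul, PowerSeries.coeff_X_pow_self, mul_one]
  · intro i _ hi
    rw [PowerSeries.coeff_C_mul, PowerSeries.coeff_X_pow, if_neg hi.symm, mul_zero]
  · intro h
    exact absurd (Finset.mem_range.2 (by omega)) h

/-- the numbers -/
private theorem two4_num {S O j : ℕ} {A D x : ℝ} (hj : 2 * j ≤ O) (hA : 0 ≤ A) (hD : 0 ≤ D)
    (h : x ≤ A / 4 ^ (S * (O - j)) + 4 * S * 4 ^ (S * (O - j)) * D / (1 / 2) ^ (O - j)) :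
    x ≤ A / 2 ^ (S * O) + 4 * S * 4 ^ (S * O) * 2 ^ O * D := by
  refine h.trans (add_le_add ?_ ?_)
  · refine div_le_div_of_nonneg_left hA (by positivity) ?_
    have h1 : (4 : ℝ) ^ (S * (O - j)) = 2 ^ (2 * (S * (O - j))) := by
      rw [pow_mul (2 : ℝ) 2]; norm_num
    rw [h1]
    refine pow_le_pow_right₀ (by norm_num) ?_
    calc S * O ≤ S * (2 * (O - j)) := Nat.mul_le_mul_left _ (by omega)
      _ = 2 * (S * (O - j)) := by ring
  · have h1 : 4 * (S : ℝ) * 4 ^ (S * (O - j)) * D / (1 / 2) ^ (O - j) =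
        4 * S * 4 ^ (S * (O - j)) * 2 ^ (O - j) * D := by
      rw [one_div, inv_pow, div_inv_eq_mul]; ring
    rw [h1]
    have h2 : (4 : ℝ) ^ (S * (O - j)) ≤ 4 ^ (S * O) :=
      pow_le_pow_right₀ (by norm_num) (Nat.mul_le_mul_left _ (by omega))
    have h3 : (2 : ℝ) ^ (O - j) ≤ 2 ^ O := pow_le_pow_right₀ (by norm_num) (by omega)
    gcongr

theorem schwarz4 (F : ℂ × ℂ → ℂ) (hF : ∀ x, AnalyticAt ℂ F x) (O S : ℕ) (hS : 1 ≤ S) (q : ℕ → ℂ)
    (hloc : ∃ C₀ r : ℝ, 0 < r ∧ ∀ z v : ℂ, ‖z‖ ≤ r → ‖v‖ ≤ ‖z‖ →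
      ‖F (z, v) - ∑ i ∈ Finset.range (O + 1), q i * z ^ (O - i) * v ^ i‖ ≤ C₀ * ‖z‖ ^ (O + 1))
    (ρ B δ : ℝ) (hρ : 0 < ρ) (hB : ∀ z v : ℂ, ‖z‖ ≤ 8 * S → ‖v‖ ≤ ρ → ‖F (z, v)‖ ≤ B)
    (hsh : ∀ s : ℤ, |s| ≤ S → ∀ z v : ℂ, ‖z‖ ≤ 1 / 2 → ‖v‖ ≤ ρ →
      ‖F (s + z, v) - F (z, v)‖ ≤ δ)
    (j : ℕ) (hj : 2 * j ≤ O) :
    ‖q j‖ ≤ B / ρ ^ j / 2 ^ (S * O) + 4 * S * 4 ^ (S * O) * 2 ^ O * (δ / ρ ^ j) := by
  classical
  have hjO : j ≤ O := by omega
  have hS0 : (0 : ℝ) < S := by exact_mod_cast hS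
  -- the slices
  have hslice : ∀ z, Differentiable ℂ (fun v => F (z, v)) := by
    intro z v
    have h1 : DifferentiableAt ℂ (fun v : ℂ => ((z, v) : ℂ × ℂ)) v :=
      (differentiableAt_const z).prodMk differentiableAt_id
    exact DifferentiableAt.comp v (hF (z, v)).differentiableAt h1
  let f : ℂ → ℂ := fun z => PowerSeries.coeff j (tay (fun v => F (z, v)))
  have hfdef : ∀ z, f z = iteratedDeriv j (fun v => F (z, v)) 0 / (j.factorial : ℂ) := by
    intro z
    simp only [f, tay, PowerSeries.coeff_mk]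
  have hfd : Differentiable ℂ f := by
    intro z
    have h1 : DifferentiableAt ℂ (fun z : ℂ => ((z, 0) : ℂ × ℂ)) z :=
      differentiableAt_id.prodMk (differentiableAt_const 0)
    have h2 := DifferentiableAt.comp z (two4_analytic F hF j (z, 0)).differentiableAt h1
    have h3 : f = fun z => ((fun x : ℂ × ℂ => iteratedDeriv j (fun v => F (x.1, v)) x.2) ∘
        fun z : ℂ => ((z, 0) : ℂ × ℂ)) z / (j.factorial : ℂ) := by
      funext z
      exact hfdef z
    rw [h3]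
    exact h2.div_const _
  -- bound on the large circle
  have hfB : ∀ z, ‖z‖ ≤ 8 * S → ‖f z‖ ≤ B / ρ ^ j := by
    intro z hz
    exact two4_cauchy _ (hslice z) j hρ fun v hv => hB z v hz hv.le
  -- approximate periodicity
  have hfs : ∀ s : ℤ, |s| ≤ S → ∀ z : ℂ, ‖z‖ ≤ 1 / 2 → ‖f (s + z) - f z‖ ≤ δ / ρ ^ j := by
    intro s hs z hz
    have h1 := two4_cauchy (fun v => F (s + z, v) - F (z, v)) ((hslice _).sub (hslice _)) j hρ
      fun v hv => hsh s hs z v hz hv.le
    have h2 : tay (fun v => (F (s + z, v) - F (z, v)) + F (z, v)) =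
        tay (fun v => F (s + z, v) - F (z, v)) + tay (fun v => F (z, v)) :=
      tay_add (((hslice _).sub (hslice _)).analyticAt 0) ((hslice _).analyticAt 0)
    have h3 : (fun v => (F (s + z, v) - F (z, v)) + F (z, v)) = fun v => F (s + z, v) := by
      funext v
      ring
    have h4 : f (s + z) - f z = PowerSeries.coeff j (tay fun v => F (s + z, v) - F (z, v)) := by
      simp only [f]
      rw [← h3, h2, map_add]
      ring
    rw [h4]
    exact h1
  -- near zero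
  obtain ⟨C₀, r, hr, hloc⟩ := hloc
  have hnear : ∀ z, z ≠ 0 → ‖z‖ ≤ r → ‖f z - q j * z ^ (O - j)‖ ≤ C₀ * ‖z‖ ^ (O + 1) / ‖z‖ ^ j := by
    intro z hz0 hz
    have hzn : 0 < ‖z‖ := norm_pos_iff.2 hz0
    let p : ℂ → ℂ := fun v => ∑ i ∈ Finset.range (O + 1), q i * z ^ (O - i) * v ^ i
    let h : ℂ → ℂ := fun v => F (z, v) - p v
    have hp : Differentiable ℂ p := by
      intro v
      exact DifferentiableAt.fun_sum fun i _ => by fun_prop
    have hh : Differentiable ℂ h := (hslice z).sub hp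
    have h1 : ‖PowerSeries.coeff j (tay h)‖ ≤ C₀ * ‖z‖ ^ (O + 1) / ‖z‖ ^ j :=
      two4_cauchy h hh j hzn fun v hv => hloc z v hz hv.le
    have h2 : tay (fun v => h v + p v) = tay h + tay p :=
      tay_add (hh.analyticAt 0) (hp.analyticAt 0)
    have h3 : (fun v => h v + p v) = fun v => F (z, v) := by
      funext v
      simp only [h]
      ring
    have h4 : f z = PowerSeries.coeff j (tay h) + q j * z ^ (O - j) := by
      simp only [f]
      rw [← h3, h2, map_add]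
      congr 1
      exact two4_poly (fun i => q i * z ^ (O - i)) O j hjO
    rw [h4, add_sub_cancel_right]
    exact h1
  -- the quotient
  let g : ℂ → ℂ := fun z => if z = 0 then q j else f z / z ^ (O - j)
  have hg0 : g 0 = q j := by simp [g]
  have hg1 : ∀ z, z ≠ 0 → g z = f z / z ^ (O - j) := by
    intro z hz
    simp [g, hz]
  have hgb : ∀ z, ‖z‖ ≤ r → ‖g z - q j‖ ≤ C₀ * ‖z‖ := by
    intro z hz
    by_cases hz0 : z = 0
    · simp [hz0, hg0]
    · have hzn : 0 < ‖z‖ := norm_pos_iff.2 hz0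
      have hzp : z ^ (O - j) ≠ 0 := pow_ne_zero _ hz0
      have h1 : g z - q j = (f z - q j * z ^ (O - j)) / z ^ (O - j) := by
        rw [hg1 z hz0]
        field_simp
      have h2 : ‖z‖ ^ (O + 1) = ‖z‖ ^ j * ‖z‖ ^ (O - j) * ‖z‖ := by
        rw [← pow_add, ← pow_succ]
        congr 1
        omega
      rw [h1, norm_div, norm_pow, div_le_iff₀ (by positivity)]
      calc ‖f z - q j * z ^ (O - j)‖ ≤ C₀ * ‖z‖ ^ (O + 1) / ‖z‖ ^ j := hnear z hz0 hz
        _ = C₀ * ‖z‖ * ‖z‖ ^ (O - j) := by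
          rw [h2]
          field_simp
  have hgc : ContinuousAt g 0 := by
    rw [ContinuousAt, hg0, tendsto_iff_norm_sub_tendsto_zero]
    have h1 : Tendsto (fun z : ℂ => C₀ * ‖z‖) (𝓝 0) (𝓝 0) := by
      have h2 : Continuous (fun z : ℂ => C₀ * ‖z‖) := by fun_prop
      simpa using h2.tendsto 0
    refine squeeze_zero' (Eventually.of_forall fun z => norm_nonneg _) ?_ h1
    filter_upwards [Metric.closedBall_mem_nhds (0 : ℂ) hr] with z hz
    exact hgb z (by simpa using hz)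
  have hfg : ∀ z, f z = z ^ (O - j) * g z := by
    have h1 : ∀ z, z ≠ 0 → f z = z ^ (O - j) * g z := by
      intro z hz0
      rw [hg1 z hz0, mul_div_cancel₀ _ (pow_ne_zero _ hz0)]
    intro z
    by_cases hz0 : z = 0
    · rw [hz0]
      have h2 : Tendsto f (𝓝[≠] 0) (𝓝 (f 0)) :=
        (hfd.continuous.tendsto 0).mono_left nhdsWithin_le_nhds
      have h3 : Tendsto (fun z => z ^ (O - j) * g z) (𝓝[≠] 0) (𝓝 (0 ^ (O - j) * g 0)) := by
        have h4 : ContinuousAt (fun z : ℂ => z ^ (O - j) * g z) 0 := by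
          exact (continuous_pow (O - j)).continuousAt.mul hgc
        exact h4.tendsto.mono_left nhdsWithin_le_nhds
      refine tendsto_nhds_unique h2 (h3.congr' ?_)
      filter_upwards [self_mem_nhdsWithin] with z hz
      exact (h1 z hz).symm
    · exact h1 z hz0
  have hgd : Differentiable ℂ g := by
    have h1 : ∀ z, z ≠ 0 → DifferentiableAt ℂ g z := by
      intro z hz
      have h2 : DifferentiableAt ℂ (fun z => f z / z ^ (O - j)) z :=
        (hfd z).div (differentiableAt_pow _) (pow_ne_zero _ hz)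
      refine h2.congr_of_eventuallyEq ?_
      filter_upwards [isOpen_ne.mem_nhds hz] with y hy
      exact hg1 y hy
    intro z
    by_cases hz : z = 0
    · rw [hz]
      refine (Complex.analyticAt_of_differentiable_on_punctured_nhds_of_continuousAt ?_
        hgc).differentiableAt
      filter_upwards [self_mem_nhdsWithin] with y hy
      exact h1 y hy
    · exact h1 z hz
  -- the residue formula
  have hδ0 : 0 ≤ δ := (norm_nonneg _).trans (hsh 0 (by simp) 0 0 (by simp) (by simpa using hρ.le))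
  have hB0 : 0 ≤ B := (norm_nonneg _).trans (hB 0 0 (by simp) (by simpa using hρ.le))
  have hmain := Bs.res_int (S := S) (O := O - j) hS hfd (A := B / ρ ^ j) (B := δ / ρ ^ j)
    (r := 1 / 2) (fun z hz => hfB z (by rw [hz]; linarith)) (by norm_num) le_rfl (by positivity)
    (fun _ => g) (fun s z => f (s + z) - f z) (fun _ _ => hgd.differentiableOn)
    (fun s _ => ((hfd.comp (differentiable_id.const_add _)).sub hfd).differentiableOn)
    (fun s _ z _ => by rw [← hfg]; ring) (fun z _ => by simp)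
    (fun s hs z hz => hfs s hs z hz.le)
  rw [hg0] at hmain
  exact two4_num hj (by positivity) (by positivity) hmain

end Pool.Agent.LGO.E4
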